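import Pool.Agent.H98.DT.Fo
import Pool.Agent.H10.DT.Rel
import Pool.Agent.H52.DT.Clo

/-!
# Artin groups of affine type `D` are in the class
-/

set_option autoImplicit false

namespace Pool.Agent.H98.DT

open Pool.Agent.H52.PAG Pool.Agent.H98.FJ Pool.Agent.H10.DT

section Gen

variable {I : Type} [LinearOrder I]

omit [LinearOrder I] in
theorem pr_ker_le (e : ℤˣ) {N : Subgroup (FL I)} [N.Normal] (h : ∀ g, par g = -e → lt g ∈ N) :
    (pr e : FL I →* FL I).ker ≤ N := by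
  intro x hx
  have h1 : (QuotientGroup.mk' N).comp (pr e) = QuotientGroup.mk' N := FreeGroup.ext_hom _ _ fun g => by
    change QuotientGroup.mk' N (pr e (lt g)) = QuotientGroup.mk' N (lt g)
    rw [pr_lt]
    split_ifs with h2
    · rfl
    · rw [map_one]
      have h3 : par g = -e := by
        rcases units_cases (par g) e with h4 | h4
        · exact (h2 h4).elim
        · exact h4
      exact ((QuotientGroup.eq_one_iff _).2 (h g h3)).symm
  have h2 := DFunLike.congr_fun h1 x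
  rw [MonoidHom.comp_apply, (show pr e x = 1 from hx), map_one] at h2
  exact (QuotientGroup.eq_one_iff _).1 h2.symm

omit [LinearOrder I] in
theorem pr_one (e : ℤˣ) (f : FL I →* FL I) (e' : ℤˣ) (h : ∀ g, par g = -e → pr e' (f (lt g)) = 1) {x : FL I}
    (hx : pr e x = 1) : pr e' (f x) = 1 := by
  have h1 : (pr e : FL I →* FL I).ker ≤ ((pr e').comp f).ker := pr_ker_le e h
  exact h1 hx

omit [LinearOrder I] in
theorem pr_lt_one {e : ℤˣ} {g : Ga I} (h : par g = -e) : pr e (lt g) = 1 := by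
  rw [pr_lt, if_neg]
  rw [h]
  exact neg_ne e

variable (I) in
/-- the image of the kernel in `Np` -/
def KN (e : ℤˣ) : Subgroup (Np I) := (Kr I e).map (jM I)

theorem mem_KN {e : ℤˣ} {z : Np I} : z ∈ KN I e ↔ ∃ x : FL I, pr e x = 1 ∧ mk (iF x) = z := by
  constructor
  · rintro ⟨y, hy, rfl⟩
    obtain ⟨x, rfl⟩ := QuotientGroup.mk'_surjective _ y
    exact ⟨x, hy, rfl⟩
  · rintro ⟨x, hx, rfl⟩
    exact ⟨QuotientGroup.mk' (KK I) x, hx, rfl⟩

theorem tb_KN (i : I) {e : ℤˣ} {z : Np I} (hz : z ∈ KN I e) : tb i z ∈ KN I (-e) := by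
  obtain ⟨x, hx, rfl⟩ := mem_KN.1 hz
  refine mem_KN.2 ⟨thF i x, pr_one e _ _ (fun g hg => ?_) hx, ?_⟩
  · rw [thF_lt, map_mul, map_mul, map_inv, pr_lt_one, mul_one, mul_inv_cancel]
    rw [map_mul, hg, par_s]
    simp
  · rw [tb_mk, th_iF]

theorem bet_KN {i j : I} {e : ℤˣ} {x : FL I} (hx : pr e x = 1) : mk (bet i j (iF x)) ∈ KN I e := by
  rw [bet_iF]
  refine mem_KN.2 ⟨bF i j x, pr_one e _ _ (fun g hg => ?_) hx, rfl⟩
  rw [bF_lt]
  exact pr_lt_one (by rw [bG_par, hg])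

theorem U_KN (l : I) {e : ℤˣ} {z : Np I} (hz : z ∈ KN I e) : U l * z * (U l)⁻¹ ∈ KN I (-e) := by
  obtain ⟨x, hx, rfl⟩ := mem_KN.1 hz
  refine mem_KN.2 ⟨act (s l) x, pr_one e _ _ (fun g hg => ?_) hx, ?_⟩
  · rw [act_lt]
    exact pr_lt_one (by
      rw [map_mul, hg, par_s]
      simp)
  · rw [iF_act, map_mul, map_mul, map_inv]
    rfl

end Gen

variable {n : ℕ}

theorem bN_KN (k : Fin (n + 3)) {e : ℤˣ} {z : Np (St n)} (hz : z ∈ KN (St n) e) : bN k z ∈ KN (St n) e := by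
  obtain ⟨x, hx, rfl⟩ := mem_KN.1 hz
  exact bet_KN hx

theorem bN_inv_KN (k : Fin (n + 3)) {e : ℤˣ} {z : Np (St n)} (hz : z ∈ KN (St n) e) : (bN k)⁻¹ z ∈ KN (St n) e := by
  obtain ⟨x, hx, rfl⟩ := mem_KN.1 hz
  have h1 : (bN k)⁻¹ (mk (iF x)) = mk (bet k.succ k.castSucc (iF x)) := rfl
  rw [h1]
  exact bet_KN hx

variable (n) in
/-- the image of the kernel in the semidirect product -/
def JE (e : ℤˣ) : Subgroup (EE n) := (KN (St n) e).map iN

/-- elements which preserve the two kernels -/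
def Pres (g : EE n) : Prop := ∀ e, ∀ z ∈ JE n e, g * z * g⁻¹ ∈ JE n e

/-- elements which exchange the two kernels -/
def Exch (g : EE n) : Prop := ∀ e, ∀ z ∈ JE n e, g * z * g⁻¹ ∈ JE n (-e)

theorem Pres.mul {g h : EE n} (hg : Pres g) (hh : Pres h) : Pres (g * h) := fun e z hz => by
  have h1 := hg e _ (hh e z hz)
  have h2 : g * h * z * (g * h)⁻¹ = g * (h * z * h⁻¹) * g⁻¹ := by group
  rwa [h2]

theorem Exch.sandwich {g h : EE n} (hg : Exch g) (hh : Pres h) : Pres (g * h * g) := fun e z hz => by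
  have h1 := hg _ _ (hh _ _ (hg e z hz))
  have h2 : g * h * g * z * (g * h * g)⁻¹ = g * (h * (g * z * g⁻¹) * h⁻¹) * g⁻¹ := by group
  rwa [h2, ← neg_neg e]

theorem pres_one : Pres (1 : EE n) := fun e z hz => by simpa using hz

theorem pres_bE (k : Fin (n + 3)) : Pres (bE k : EE n) := by
  rintro e _ ⟨x, hx, rfl⟩
  rw [bE_iN, mul_inv_cancel_right]
  exact ⟨_, bN_KN k hx, rfl⟩

theorem pres_bE_inv (k : Fin (n + 3)) : Pres (bE k : EE n)⁻¹ := by
  rintro e _ ⟨x, hx, rfl⟩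
  have h1 : (bE k)⁻¹ * iN x * ((bE k)⁻¹)⁻¹ = (iN ((bN k)⁻¹ x) : EE n) := by
    have h2 := bE_iN (n := n) k ((bN k)⁻¹ x)
    rw [MulAut.apply_inv_self] at h2
    rw [inv_inv, mul_assoc, ← h2, inv_mul_cancel_left]
  rw [h1]
  exact ⟨_, bN_inv_KN k hx, rfl⟩

theorem pres_qE : Pres (qE : EE n) := by
  rintro e _ ⟨x, hx, rfl⟩
  rw [qE_iN, mul_inv_cancel_right]
  refine ⟨_, ?_, rfl⟩
  have h1 := tb_KN 0 (bN_KN 0 (tb_KN 0 hx))
  rwa [neg_neg] at h1

theorem pres_qE_inv : Pres (qE : EE n)⁻¹ := by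
  rintro e _ ⟨x, hx, rfl⟩
  have h1 : (qE)⁻¹ * iN x * ((qE)⁻¹)⁻¹ = (iN (tb 0 ((bN 0)⁻¹ (tb 0 x))) : EE n) := by
    have h2 := qE_iN (n := n) (tb 0 ((bN 0)⁻¹ (tb 0 x)))
    rw [tb_tb, MulAut.apply_inv_self, tb_tb] at h2
    rw [inv_inv, mul_assoc, ← h2, inv_mul_cancel_left]
  rw [h1]
  refine ⟨_, ?_, rfl⟩
  have h2 := tb_KN 0 (bN_inv_KN 0 (tb_KN 0 hx))
  rwa [neg_neg] at h2

theorem exch_rE : Exch (rE : EE n) := by
  rintro e _ ⟨x, hx, rfl⟩
  refine ⟨_, U_KN (Fin.last (n + 3)) hx, ?_⟩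
  rw [map_mul, map_mul, map_inv]
  rfl

theorem pres_phE (g : Art (cmT n)) : Pres (phE n g) := by
  have hr : (rE : EE n)⁻¹ = rE := inv_eq_of_mul_eq_one_left rE_mul
  have h1 : ∀ y, Pres (phE n (gen _ y)) := by
    intro y
    rcases y with _ | y
    · rw [phE_q']
      exact exch_rE.sandwich (pres_bE _)
    · rcases y with _ | k
      · rw [phE_q]
        exact pres_qE
      · rw [phE_b]
        exact pres_bE k
  have h2 : ∀ y, Pres (phE n (gen _ y))⁻¹ := by
    intro y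
    rcases y with _ | y
    · rw [phE_q', mul_inv_rev, mul_inv_rev, hr, ← mul_assoc]
      exact exch_rE.sandwich (pres_bE_inv _)
    · rcases y with _ | k
      · rw [phE_q]
        exact pres_qE_inv
      · rw [phE_b]
        exact pres_bE_inv k
  induction g using art_induction with
  | h1 =>
    rw [map_one]
    exact pres_one
  | h2 g i ih =>
    rw [map_mul]
    exact ih.mul (h1 i)
  | h3 g i ih =>
    rw [map_mul, map_inv]
    exact ih.mul (h2 i)

variable (n) in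
/-- the product of the two folds -/
def ff : Art (cmT n) →* Art (cmD n 1) × Art (cmD n (n + 1)) := (f1 n).prod (f2 n)

variable (n) in
/-- the two normal subgroups -/
def KT (e : ℤˣ) : Subgroup (Art (cmT n)) := (ff n).ker ⊓ (JE n e).comap (phE n)

theorem mem_KT {e : ℤˣ} {g : Art (cmT n)} : g ∈ KT n e ↔ ff n g = 1 ∧ phE n g ∈ JE n e := by
  rw [KT, Subgroup.mem_inf, Subgroup.mem_comap, MonoidHom.mem_ker]

instance KT_normal (e : ℤˣ) : (KT n e).Normal := by
  refine ⟨fun z hz g => ?_⟩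
  rw [mem_KT] at hz ⊢
  refine ⟨?_, ?_⟩
  · rw [map_mul, map_mul, map_inv, hz.1, mul_one, mul_inv_cancel]
  · rw [map_mul, map_mul, map_inv]
    exact pres_phE g e _ hz.2

theorem KT_le (e : ℤˣ) : KT n e ≤ (ff n).ker := inf_le_left

variable (n) in
/-- the embedding of the quotient of the free group in the semidirect product -/
def jE : Mq (St n) →* EE n := iN.comp (jM (St n))

theorem jE_inj : Function.Injective (jE n) := iN_inj.comp jM_inj

theorem mem_JE {e : ℤˣ} {y : Mq (St n)} : jE n y ∈ JE n e ↔ y ∈ Kr (St n) e := by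
  have h1 : JE n e = (Kr (St n) e).map (jE n) := by
    rw [JE, KN, Subgroup.map_map]
    rfl
  rw [h1]
  exact Subgroup.mem_map_iff_mem jE_inj

theorem range_ker (g : (ff n).ker) : phE n g ∈ (jE n).range := by
  have h1 : ff n g = 1 := g.2
  have h2 : f1 n g = 1 := congrArg Prod.fst h1
  have h3 : f2 n g = 1 := congrArg Prod.snd h1
  obtain ⟨y, hy⟩ := exists_of_folds h2 h3
  exact ⟨y, hy⟩

variable (n) in
/-- the homomorphism from the kernel of the folds to the quotient of the free group -/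
noncomputable def yy : (ff n).ker →* Mq (St n) :=
  (MonoidHom.ofInjective (jE_inj (n := n))).symm.toMonoidHom.comp
    (((phE n).comp (ff n).ker.subtype).codRestrict (jE n).range range_ker)

theorem jE_yy (g : (ff n).ker) : jE n (yy n g) = phE n g := by
  have h1 := MulEquiv.apply_symm_apply (MonoidHom.ofInjective (jE_inj (n := n))) ⟨phE n g, range_ker g⟩
  exact congrArg Subtype.val h1

theorem yy_inj : Function.Injective (yy n) := fun g g' h => by
  have h1 := congrArg (jE n) h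
  rw [jE_yy, jE_yy] at h1
  exact Subtype.ext (phE_inj n h1)

theorem KT_free : IsFreeGroup (KT n 1 ⊓ KT n (-1) : Subgroup (Art (cmT n))) := by
  have hle : KT n 1 ⊓ KT n (-1) ≤ (ff n).ker := inf_le_left.trans (KT_le 1)
  have hmem : ∀ g : (KT n 1 ⊓ KT n (-1) : Subgroup (Art (cmT n))),
      (yy n).comp (Subgroup.inclusion hle) g ∈ (Kr (St n) 1 ⊓ Kr (St n) (-1) : Subgroup (Mq (St n))) := by
    intro g
    have h1 := Subgroup.mem_inf.1 g.2
    rw [Subgroup.mem_inf, ← mem_JE, ← mem_JE, MonoidHom.comp_apply, jE_yy]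
    exact ⟨(mem_KT.1 h1.1).2, (mem_KT.1 h1.2).2⟩
  refine free_of_injective (B := (Kr (St n) 1 ⊓ Kr (St n) (-1) : Subgroup (Mq (St n))))
    (((yy n).comp (Subgroup.inclusion hle)).codRestrict _ hmem) ?_ free_R
  intro g g' h
  have h1 := congrArg Subtype.val h
  exact Subgroup.inclusion_injective hle (yy_inj h1)

theorem ker_F (e : ℤˣ) : ((prM e).comp (yy n)).ker = (KT n e).subgroupOf (ff n).ker := by
  ext g
  rw [MonoidHom.mem_ker, Subgroup.mem_subgroupOf, MonoidHom.comp_apply]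
  rw [mem_KT, ← jE_yy, mem_JE]
  exact ⟨fun h => ⟨g.2, h⟩, fun h => h.2⟩

/-- the Artin groups of affine type `D` are in the class if the Artin groups of type `D` are -/
theorem art_cmT_mem {C : (G : Type) → [Group G] → Prop} (hC : Inherits C) (hE : Extension C) (hF : FreeByZ C) (n : ℕ)
    (hD : C (Art (cmD n 1))) (hD' : C (Art (cmD n (n + 1)))) : C (Art (cmT n)) :=
  Pool.Agent.H52.DT.clo hC hE hF (ff n) (Pool.Agent.H52.DT.mem_prod hC hD hD') (KT n 1) (KT n (-1))
    (KT_le 1) (KT_le (-1)) ((prM 1).comp (yy n)) (ker_F 1) ((prM (-1)).comp (yy n)) (ker_F (-1)) KT_free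

end Pool.Agent.H98.DT
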