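import Pool.Agent.H52.PAG.Defs

/-!
# Artin groups of the types `D` and affine `D`

`cmD n c` is the diagram with the path `0, …, n + 2` (the generators `some k`) and a further vertex `none` which is connected with
the vertex `c`. For `c = 1` and `c = n + 1` it is of type `D` with `n + 4` vertices. `cmT n` is the affine diagram with `n + 5`
vertices: the path, the vertex `some none` connected with `1` and the vertex `none` connected with `n + 1`.
-/

set_option autoImplicit false

namespace Pool.Agent.H98.DT

open Pool.Agent.H52.PAG

theorem alt_two {G : Type*} [Monoid G] (x y : G) : alt x y 2 = x * y := by simp [alt]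

theorem alt_three {G : Type*} [Monoid G] (x y : G) : alt x y 3 = x * y * x := by simp [alt, mul_assoc]

/-- the labels of the path -/
def pl (k l : ℕ) : ℕ := if k = l then 1 else if k + 1 = l ∨ l + 1 = k then 3 else 2

/-- the labels of the diagram -/
def lD {m : ℕ} (c : ℕ) : Option (Fin m) → Option (Fin m) → ℕ
  | some k, some l => pl k l
  | some k, none => if k.val = c then 3 else 2
  | none, some k => if k.val = c then 3 else 2
  | none, none => 1

/-- the diagram of type `D` -/
def cmD (n c : ℕ) : CoxeterMatrix (Option (Fin (n + 3))) where
  M := Matrix.of (lD c)
  isSymm := by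
    ext x y
    rcases x with _ | k <;> rcases y with _ | l
    · rfl
    · rfl
    · rfl
    · simp only [Matrix.transpose_apply, Matrix.of_apply, lD, pl]
      split_ifs <;> omega
  diagonal x := by
    rcases x with _ | k
    · rfl
    · simp [lD, pl]
  off_diagonal x y h := by
    rcases x with _ | k <;> rcases y with _ | l
    · exact (h rfl).elim
    · simp only [Matrix.of_apply, lD]
      split_ifs <;> omega
    · simp only [Matrix.of_apply, lD]
      split_ifs <;> omega
    · have h1 : k.val ≠ l.val := fun h1 => h (congrArg some (Fin.ext h1))
      simp only [Matrix.of_apply, lD, pl, if_neg h1]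
      split_ifs <;> omega

theorem cmD_apply (n c : ℕ) (x y : Option (Fin (n + 3))) : cmD n c x y = lD c x y := rfl

/-- the labels of the affine diagram -/
def lT (n : ℕ) : Option (Option (Fin (n + 3))) → Option (Option (Fin (n + 3))) → ℕ
  | some x, some y => lD 1 x y
  | some (some k), none => if k.val = n + 1 then 3 else 2
  | none, some (some k) => if k.val = n + 1 then 3 else 2
  | some none, none => 2
  | none, some none => 2
  | none, none => 1

/-- the diagram of affine type `D` -/
def cmT (n : ℕ) : CoxeterMatrix (Option (Option (Fin (n + 3)))) where
  M := Matrix.of (lT n)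
  isSymm := by
    ext x y
    rcases x with _ | x <;> rcases y with _ | y
    · rfl
    · rcases y with _ | l <;> rfl
    · rcases x with _ | l <;> rfl
    · have h1 := (cmD n 1).symmetric x y
      exact h1.symm
  diagonal x := by
    rcases x with _ | x
    · rfl
    · exact (cmD n 1).diagonal x
  off_diagonal x y h := by
    rcases x with _ | x <;> rcases y with _ | y
    · exact (h rfl).elim
    · rcases y with _ | l
      · exact (by decide : 2 ≠ 1)
      · simp only [Matrix.of_apply, lT]
        split_ifs <;> omega
    · rcases x with _ | l
      · exact (by decide : 2 ≠ 1)
      · simp only [Matrix.of_apply, lT]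
        split_ifs <;> omega
    · exact (cmD n 1).off_diagonal x y fun h1 => h (congrArg some h1)

theorem cmT_apply (n : ℕ) (x y : Option (Option (Fin (n + 3)))) : cmT n x y = lT n x y := rfl

section Rel

variable {n : ℕ} {G : Type*} [Group G]

/-- the braid relations -/
structure BRel (b : Fin (n + 3) → G) : Prop where
  br : ∀ k l : Fin (n + 3), k.val + 1 = l.val → b k * b l * b k = b l * b k * b l
  co : ∀ k l : Fin (n + 3), k.val + 2 ≤ l.val → b k * b l = b l * b k

/-- the relations of type `D` -/
structure DRel (c : ℕ) (b : Fin (n + 3) → G) (q : G) : Prop extends BRel b where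
  qbr : ∀ k : Fin (n + 3), k.val = c → q * b k * q = b k * q * b k
  qco : ∀ k : Fin (n + 3), k.val ≠ c → q * b k = b k * q

/-- the relations of affine type `D` -/
structure TRel (b : Fin (n + 3) → G) (q q' : G) : Prop where
  d : DRel 1 b q
  d' : DRel (n + 1) b q'
  qq : q * q' = q' * q

/-- a conjugate of an end of the path by an involution -/
theorem BRel.twin {b : Fin (n + 3) → G} (h : BRel b) {s : G} (hs : s * s = 1) (e : Fin (n + 3)) (c : ℕ)
    (hsb : ∀ k, k ≠ e → s * b k = b k * s) (he : b e * s * b e * s = s * b e * s * b e)
    (h1 : ∀ k : Fin (n + 3), k.val = c → e.val + 1 = k.val ∨ k.val + 1 = e.val)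
    (h2 : ∀ k : Fin (n + 3), k.val ≠ c → k = e ∨ e.val + 2 ≤ k.val ∨ k.val + 2 ≤ e.val) :
    DRel c b (s * b e * s) where
  br := h.br
  co := h.co
  qbr k hk := by
    have h3 : b e * b k * b e = b k * b e * b k := by
      rcases h1 k hk with h4 | h4
      · exact h.br e k h4
      · exact (h.br k e h4).symm
    have h5 : s * b k = b k * s := hsb k fun h6 => by
      have h7 := h1 k hk
      rw [h6] at h7
      omega
    calc s * b e * s * b k * (s * b e * s) = s * b e * (s * b k) * s * b e * s := by group
      _ = s * b e * b k * (s * s) * b e * s := by
        rw [h5]
        group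
      _ = s * (b e * b k * b e) * s := by
        rw [hs]
        group
      _ = (s * b k) * b e * (b k * s) := by
        rw [h3]
        group
      _ = (b k * s) * b e * (s * b k) := by rw [h5]
      _ = b k * (s * b e * s) * b k := by group
  qco k hk := by
    rcases h2 k hk with rfl | h4
    · calc s * b k * s * b k = b k * s * b k * s := he.symm
        _ = b k * (s * b k * s) := by group
    · have h3 : b e * b k = b k * b e := by
        rcases h4 with h4 | h4
        · exact h.co e k h4
        · exact (h.co k e h4).symm
      have h5 : s * b k = b k * s := hsb k fun h6 => by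
        rw [h6] at h4
        omega
      calc s * b e * s * b k = s * b e * (s * b k) := by group
        _ = s * (b e * b k) * s := by
          rw [h5]
          group
        _ = (s * b k) * b e * s := by
          rw [h3]
          group
        _ = b k * (s * b e * s) := by
          rw [h5]
          group

/-- the values on the generators -/
def oG {α : Type*} (b : α → G) (q : G) : Option α → G
  | some k => b k
  | none => q

/-- homomorphisms from the Artin group of type `D` -/
def liftD {c : ℕ} {b : Fin (n + 3) → G} {q : G} (h : DRel c b q) : Art (cmD n c) →* G :=
  lift (oG b q) fun x y _ => by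
    rw [cmD_apply]
    rcases x with _ | k <;> rcases y with _ | l
    · rfl
    · simp only [lD, oG]
      split_ifs with h1
      · rw [alt_three, alt_three]
        exact h.qbr l h1
      · rw [alt_two, alt_two]
        exact h.qco l h1
    · simp only [lD, oG]
      split_ifs with h1
      · rw [alt_three, alt_three]
        exact (h.qbr k h1).symm
      · rw [alt_two, alt_two]
        exact (h.qco k h1).symm
    · simp only [lD, oG, pl]
      split_ifs with h1 h2
      · rw [Fin.ext h1]
      · rw [alt_three, alt_three]
        rcases h2 with h2 | h2
        · exact h.br k l h2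
        · exact (h.br l k h2).symm
      · rw [alt_two, alt_two]
        rcases lt_or_gt_of_ne h1 with h3 | h3
        · exact h.co k l (by omega)
        · exact (h.co l k (by omega)).symm

/-- homomorphisms from the Artin group of affine type `D` -/
def liftT {b : Fin (n + 3) → G} {q q' : G} (h : TRel b q q') : Art (cmT n) →* G :=
  lift (oG (oG b q) q') fun x y hxy => by
    rw [cmT_apply]
    have hd : ∀ z w : Option (Fin (n + 3)), alt (oG b q z) (oG b q w) (lD 1 z w) =
        alt (oG b q w) (oG b q z) (lD 1 z w) := by
      intro z w
      have h1 : cmD n 1 z w ≠ 0 := by
        rw [cmD_apply]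
        rcases z with _ | k <;> rcases w with _ | l <;> simp only [lD, pl]
        · decide
        · split_ifs <;> omega
        · split_ifs <;> omega
        · split_ifs <;> omega
      have h2 := congrArg (liftD h.d) (gen_rel h1)
      rw [map_alt, map_alt] at h2
      simpa only [liftD, lift_gen, cmD_apply] using h2
    rcases x with _ | x <;> rcases y with _ | y
    · rfl
    · rcases y with _ | l
      · change alt q' q 2 = alt q q' 2
        rw [alt_two, alt_two]
        exact h.qq.symm
      · change alt q' (b l) (if l.val = n + 1 then 3 else 2) = alt (b l) q' (if l.val = n + 1 then 3 else 2)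
        split_ifs with h1
        · rw [alt_three, alt_three]
          exact h.d'.qbr l h1
        · rw [alt_two, alt_two]
          exact h.d'.qco l h1
    · rcases x with _ | l
      · change alt q q' 2 = alt q' q 2
        rw [alt_two, alt_two]
        exact h.qq
      · change alt (b l) q' (if l.val = n + 1 then 3 else 2) = alt q' (b l) (if l.val = n + 1 then 3 else 2)
        split_ifs with h1
        · rw [alt_three, alt_three]
          exact (h.d'.qbr l h1).symm
        · rw [alt_two, alt_two]
          exact (h.d'.qco l h1).symm
    · exact hd x y

@[simp]
theorem liftD_b {c : ℕ} {b : Fin (n + 3) → G} {q : G} (h : DRel c b q) (k : Fin (n + 3)) :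
    liftD h (gen _ (some k)) = b k := lift_gen _ _ _

@[simp]
theorem liftD_q {c : ℕ} {b : Fin (n + 3) → G} {q : G} (h : DRel c b q) :
    liftD h (gen _ none) = q := lift_gen _ _ _

@[simp]
theorem liftT_b {b : Fin (n + 3) → G} {q q' : G} (h : TRel b q q') (k : Fin (n + 3)) :
    liftT h (gen _ (some (some k))) = b k := lift_gen _ _ _

@[simp]
theorem liftT_q {b : Fin (n + 3) → G} {q q' : G} (h : TRel b q q') :
    liftT h (gen _ (some none)) = q := lift_gen _ _ _

@[simp]
theorem liftT_q' {b : Fin (n + 3) → G} {q q' : G} (h : TRel b q q') :
    liftT h (gen _ none) = q' := lift_gen _ _ _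

theorem d_ext {c : ℕ} {f g : Art (cmD n c) →* G} (h1 : ∀ k, f (gen _ (some k)) = g (gen _ (some k)))
    (h2 : f (gen _ none) = g (gen _ none)) : f = g :=
  art_ext fun x => by
    rcases x with _ | k
    · exact h2
    · exact h1 k

theorem t_ext {f g : Art (cmT n) →* G} (h1 : ∀ k, f (gen _ (some (some k))) = g (gen _ (some (some k))))
    (h2 : f (gen _ (some none)) = g (gen _ (some none))) (h3 : f (gen _ none) = g (gen _ none)) : f = g :=
  art_ext fun x => by
    rcases x with _ | x
    · exact h3
    · rcases x with _ | k
      · exact h2
      · exact h1 k

end Rel

section Gen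

variable (n : ℕ)

/-- the generators of the Artin group of type `D` satisfy the relations -/
theorem drel_gen (c : ℕ) : DRel c (fun k : Fin (n + 3) => gen (cmD n c) (some k)) (gen (cmD n c) none) where
  br k l h := by
    have h1 := gen_rel (M := cmD n c) (i := some k) (j := some l)
    have h2 : cmD n c (some k) (some l) = 3 := by
      rw [cmD_apply]
      simp only [lD, pl]
      rw [if_neg (by omega), if_pos (Or.inl h)]
    rw [h2, alt_three, alt_three] at h1
    exact h1 (by decide)
  co k l h := by
    have h1 := gen_rel (M := cmD n c) (i := some k) (j := some l)
    have h2 : cmD n c (some k) (some l) = 2 := by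
      rw [cmD_apply]
      simp only [lD, pl]
      rw [if_neg (by omega), if_neg (by omega)]
    rw [h2, alt_two, alt_two] at h1
    exact h1 (by decide)
  qbr k h := by
    have h1 := gen_rel (M := cmD n c) (i := none) (j := some k)
    have h2 : cmD n c none (some k) = 3 := by
      rw [cmD_apply]
      simp only [lD]
      rw [if_pos h]
    rw [h2, alt_three, alt_three] at h1
    exact h1 (by decide)
  qco k h := by
    have h1 := gen_rel (M := cmD n c) (i := none) (j := some k)
    have h2 : cmD n c none (some k) = 2 := by
      rw [cmD_apply]
      simp only [lD]
      rw [if_neg h]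
    rw [h2, alt_two, alt_two] at h1
    exact h1 (by decide)

theorem trel_gen : TRel (fun k : Fin (n + 3) => gen (cmT n) (some (some k))) (gen (cmT n) (some none))
    (gen (cmT n) none) where
  d :=
    { br := fun k l h => by
        have h1 := gen_rel (M := cmT n) (i := some (some k)) (j := some (some l))
        have h2 : cmT n (some (some k)) (some (some l)) = 3 := by
          rw [cmT_apply]
          simp only [lT, lD, pl]
          rw [if_neg (by omega), if_pos (Or.inl h)]
        rw [h2, alt_three, alt_three] at h1
        exact h1 (by decide)
      co := fun k l h => by
        have h1 := gen_rel (M := cmT n) (i := some (some k)) (j := some (some l))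
        have h2 : cmT n (some (some k)) (some (some l)) = 2 := by
          rw [cmT_apply]
          simp only [lT, lD, pl]
          rw [if_neg (by omega), if_neg (by omega)]
        rw [h2, alt_two, alt_two] at h1
        exact h1 (by decide)
      qbr := fun k h => by
        have h1 := gen_rel (M := cmT n) (i := some none) (j := some (some k))
        have h2 : cmT n (some none) (some (some k)) = 3 := by
          rw [cmT_apply]
          simp only [lT, lD]
          rw [if_pos h]
        rw [h2, alt_three, alt_three] at h1
        exact h1 (by decide)
      qco := fun k h => by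
        have h1 := gen_rel (M := cmT n) (i := some none) (j := some (some k))
        have h2 : cmT n (some none) (some (some k)) = 2 := by
          rw [cmT_apply]
          simp only [lT, lD]
          rw [if_neg h]
        rw [h2, alt_two, alt_two] at h1
        exact h1 (by decide) }
  d' :=
    { br := fun k l h => by
        have h1 := gen_rel (M := cmT n) (i := some (some k)) (j := some (some l))
        have h2 : cmT n (some (some k)) (some (some l)) = 3 := by
          rw [cmT_apply]
          simp only [lT, lD, pl]
          rw [if_neg (by omega), if_pos (Or.inl h)]
        rw [h2, alt_three, alt_three] at h1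
        exact h1 (by decide)
      co := fun k l h => by
        have h1 := gen_rel (M := cmT n) (i := some (some k)) (j := some (some l))
        have h2 : cmT n (some (some k)) (some (some l)) = 2 := by
          rw [cmT_apply]
          simp only [lT, lD, pl]
          rw [if_neg (by omega), if_neg (by omega)]
        rw [h2, alt_two, alt_two] at h1
        exact h1 (by decide)
      qbr := fun k h => by
        have h1 := gen_rel (M := cmT n) (i := none) (j := some (some k))
        have h2 : cmT n none (some (some k)) = 3 := by
          rw [cmT_apply]
          simp only [lT]
          rw [if_pos h]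
        rw [h2, alt_three, alt_three] at h1
        exact h1 (by decide)
      qco := fun k h => by
        have h1 := gen_rel (M := cmT n) (i := none) (j := some (some k))
        have h2 : cmT n none (some (some k)) = 2 := by
          rw [cmT_apply]
          simp only [lT]
          rw [if_neg h]
        rw [h2, alt_two, alt_two] at h1
        exact h1 (by decide) }
  qq := by
    have h1 := gen_rel (M := cmT n) (i := some none) (j := none)
    have h2 : cmT n (some none) none = 2 := rfl
    rw [h2, alt_two, alt_two] at h1
    exact h1 (by decide)

end Gen

end Pool.Agent.H98.DT
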