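import Pool.Agent.H98.DT.Np

/-!
# The braid automorphisms

`bet i j` is the automorphism `u_i ↦ u_i u_j u_i`, `u_j ↦ u_i` of `Phi I`; its inverse is `bet j i`. For `i ⋖ j` both preserve
the relations, so that they induce automorphisms of `Np I`.
-/

set_option autoImplicit false

namespace Pool.Agent.H98.DT

section Gen

variable {I : Type} [DecidableEq I]

/-- the images of the generators -/
def bsG {G : Type*} [Group G] (f : I → G) (i j l : I) : G :=
  if l = i then f i * f j * f i else if l = j then f i else f l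

theorem bsG_mul {G : Type*} [Group G] {f : I → G} (hf : ∀ i, f i * f i = 1) (i j l : I) :
    bsG f i j l * bsG f i j l = 1 := by
  rw [bsG]
  split_ifs
  · calc f i * f j * f i * (f i * f j * f i) = f i * f j * (f i * f i) * f j * f i := by group
      _ = f i * (f j * f j) * f i := by rw [hf]; group
      _ = 1 := by rw [hf, mul_one, hf]
  · exact hf i
  · exact hf l

theorem bsG_left {G : Type*} [Group G] (f : I → G) (i j : I) : bsG f i j i = f i * f j * f i := if_pos rfl

theorem bsG_right {G : Type*} [Group G] (f : I → G) {i j : I} (h : i ≠ j) : bsG f i j j = f i := by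
  rw [bsG, if_neg h.symm, if_pos rfl]

theorem bsG_of_ne {G : Type*} [Group G] (f : I → G) {i j l : I} (h1 : l ≠ i) (h2 : l ≠ j) :
    bsG f i j l = f l := by
  rw [bsG, if_neg h1, if_neg h2]

theorem map_bsG {G H : Type*} [Group G] [Group H] (φ : G →* H) (f : I → G) (i j l : I) :
    φ (bsG f i j l) = bsG (fun k => φ (f k)) i j l := by
  rw [bsG, bsG]
  split_ifs <;> simp

/-- the automorphism of the free product -/
def bG (i j : I) : Ga I →* Ga I := liftG (bsG s i j) (bsG_mul s_mul_s i j)

theorem bG_s (i j l : I) : bG i j (s l) = bsG s i j l := liftG_s _ _ _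

theorem bG_par (i j : I) (g : Ga I) : par (bG i j g) = par g := by
  have h1 : par.comp (bG i j) = (par : Ga I →* ℤˣ) := ga_ext fun l => by
    rw [MonoidHom.comp_apply, bG_s, bsG]
    split_ifs
    · simp
    · simp
    · rfl
  exact DFunLike.congr_fun h1 g

theorem bG_bG {i j : I} (h : i ≠ j) (g : Ga I) : bG i j (bG j i g) = g := by
  have h1 : (bG i j).comp (bG j i) = MonoidHom.id (Ga I) := ga_ext fun l => by
    rw [MonoidHom.comp_apply, bG_s, map_bsG, MonoidHom.id_apply]
    simp only [bG_s]
    by_cases h1 : l = j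
    · subst h1
      rw [bsG_left, bsG_left, bsG_right _ h]
      calc s i * (s i * s l * s i) * s i = (s i * s i) * s l * (s i * s i) := by group
        _ = s l := by rw [s_mul_s, one_mul, mul_one]
    · by_cases h2 : l = i
      · subst h2
        rw [bsG_right _ h.symm, bsG_right _ h]
      · rw [bsG_of_ne _ h1 h2, bsG_of_ne _ h2 h1]
  exact DFunLike.congr_fun h1 g

/-- the automorphism of `Phi I` -/
def bet (i j : I) : Phi I →* Phi I := liftP pa (bsG pu i j) (bsG_mul pu_mul_pu i j)

@[simp]
theorem bet_pa (i j : I) : bet i j pa = pa := liftP_pa _ _ _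

theorem bet_pu (i j l : I) : bet i j (pu l) = bsG pu i j l := liftP_pu _ _ _ _

theorem bet_iG (i j : I) (g : Ga I) : bet i j (iG g) = iG (bG i j g) := by
  have h1 : (bet i j).comp iG = iG.comp (bG i j) := ga_ext fun l => by
    rw [MonoidHom.comp_apply, MonoidHom.comp_apply, bG_s, map_bsG]
    exact bet_pu i j l
  exact DFunLike.congr_fun h1 g

theorem bet_lt (i j : I) (g : Ga I) : bet i j (iF (lt g)) = iF (lt (bG i j g)) := by
  rw [← conj_pa, map_mul, map_mul, map_inv, bet_iG, bet_pa, conj_pa]

/-- the restriction to the free group -/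
def bF (i j : I) : FL I →* FL I := FreeGroup.map (bG i j)

@[simp]
theorem bF_lt (i j : I) (g : Ga I) : bF i j (lt g) = lt (bG i j g) := FreeGroup.map.of

theorem bet_iF (i j : I) (x : FL I) : bet i j (iF x) = iF (bF i j x) := by
  have h1 : (bet i j).comp iF = iF.comp (bF i j) := FreeGroup.ext_hom _ _ fun g => by
    change bet i j (iF (lt g)) = iF (bF i j (lt g))
    rw [bet_lt, bF_lt]
  exact DFunLike.congr_fun h1 x

theorem bet_bet {i j : I} (h : i ≠ j) (x : Phi I) : bet i j (bet j i x) = x := by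
  have h1 : (bet i j).comp (bet j i) = MonoidHom.id (Phi I) := by
    refine phi_ext ?_ fun l => ?_
    · simp
    · rw [MonoidHom.comp_apply, pu, bet_iG, bet_iG, bG_bG h, MonoidHom.id_apply]
  exact DFunLike.congr_fun h1 x

end Gen

variable {I : Type} [LinearOrder I]

theorem pw_pu {I : Type} (i : I) : pw i * pu i = pu i * (pw i)⁻¹ := by
  rw [eq_mul_inv_iff_mul_eq, mul_assoc, pu_pw, mul_inv_cancel_left]

theorem pw_conj {I : Type} (i l : I) (g : Phi I →* Phi I) (h1 : g pa = pa) (h2 : g (pu i) = pu l) : g (pw i) = pw l := by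
  rw [pw, pw, map_mul, map_mul, map_mul, map_inv, h1, h2]

/-- `bet i j` commutes with `th l` for the other indices -/
theorem bet_th {i j l : I} (h : l < i ∧ l < j ∨ i < l ∧ j < l) (x : Phi I) :
    bet i j (th l x) = th l (bet i j x) := by
  have hli : l ≠ i := by
    rintro rfl
    rcases h with h | h
    · exact lt_irrefl _ h.1
    · exact lt_irrefl _ h.1
  have hlj : l ≠ j := by
    rintro rfl
    rcases h with h | h
    · exact lt_irrefl _ h.2
    · exact lt_irrefl _ h.2
  have hl : bet i j (pu l) = pu l := by rw [bet_pu, bsG_of_ne _ hli hlj]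
  have hw : bet i j (pw l) = pw l := pw_conj l l _ (bet_pa i j) hl
  have h1 : (bet i j).comp (th l) = (th l).comp (bet i j) := by
    refine phi_ext ?_ fun k => ?_
    · rw [MonoidHom.comp_apply, MonoidHom.comp_apply, bet_pa, th_pa, map_mul, map_mul, bet_pa, hl]
    · rw [MonoidHom.comp_apply, MonoidHom.comp_apply]
      by_cases hk : k = i ∨ k = j
      · rcases h with h | h
        · have hk' : l < k := by
            rcases hk with rfl | rfl
            · exact h.1
            · exact h.2
          rw [th_pu_lt hk', bet_pu, map_bsG, bsG, bsG]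
          rw [th_pu_lt h.1, th_pu_lt h.2]
          split_ifs with h3 h4
          · rfl
          · rfl
          · exfalso
            rcases hk with hk | hk
            · exact h3 hk
            · exact h4 hk
        · have hk' : k < l := by
            rcases hk with rfl | rfl
            · exact h.1
            · exact h.2
          rw [th_pu_gt hk', map_mul, map_mul, map_inv, hw, bet_pu, map_bsG, bsG, bsG, th_pu_gt h.1, th_pu_gt h.2]
          split_ifs with h3 h4
          · group
          · rfl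
          · exfalso
            rcases hk with hk | hk
            · exact h3 hk
            · exact h4 hk
      · have h3 : bet i j (pu k) = pu k := by
          rw [bet_pu, bsG_of_ne _ (fun h => hk (Or.inl h)) (fun h => hk (Or.inr h))]
        rw [h3, th_pu, thu]
        split_ifs
        · exact h3
        · rw [map_mul, hw, hl]
        · rw [map_mul, map_mul, map_inv, hw, h3]
  exact DFunLike.congr_fun h1 x

theorem cov_cases {i j : I} (h : i ⋖ j) (l : I) : l < i ∨ l = i ∨ l = j ∨ j < l := by
  rcases lt_trichotomy l i with h1 | h1 | h1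
  · exact Or.inl h1
  · exact Or.inr (Or.inl h1)
  · rcases lt_trichotomy l j with h2 | h2 | h2
    · exact (h.2 h1 h2).elim
    · exact Or.inr (Or.inr (Or.inl h2))
    · exact Or.inr (Or.inr (Or.inr h2))

theorem bet_th_right {i j : I} (h : i ⋖ j) (x : Phi I) : bet i j (th j x) = th i (bet i j x) := by
  have hij : i < j := h.1
  have hw : bet i j (pw j) = pw i := pw_conj j i _ (bet_pa i j) (by rw [bet_pu, bsG_right _ hij.ne])
  have h1 : (bet i j).comp (th j) = (th i).comp (bet i j) := by
    refine phi_ext ?_ fun l => ?_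
    · rw [MonoidHom.comp_apply, MonoidHom.comp_apply, bet_pa, th_pa, th_pa, map_mul, map_mul, bet_pa, bet_pu,
        bsG_right _ hij.ne]
    · rw [MonoidHom.comp_apply, MonoidHom.comp_apply]
      rcases cov_cases h l with h2 | rfl | rfl | h2
      · rw [th_pu_gt (h2.trans hij), map_mul, map_mul, map_inv, hw, bet_pu, bsG_of_ne _ h2.ne (h2.trans hij).ne,
          th_pu_gt h2]
      · rw [th_pu_gt hij, map_mul, map_mul, map_inv, hw, bet_pu, bsG_left, map_mul, map_mul, th_pu_self,
          th_pu_lt hij]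
        calc pw l * (pu l * pu j * pu l) * (pw l)⁻¹ = pw l * pu l * pu j * (pu l * (pw l)⁻¹) := by group
          _ = pw l * pu l * pu j * (pw l * pu l) := by rw [← pw_pu]
      · rw [th_pu_self, map_mul, hw, bet_pu, bsG_right _ hij.ne, th_pu_self]
      · rw [th_pu_lt h2, bet_pu, bsG_of_ne _ (hij.trans h2).ne' h2.ne', th_pu_lt (hij.trans h2)]
  exact DFunLike.congr_fun h1 x

/-- a homomorphism from `Phi I` which kills the relations -/
theorem NK_le_ker {H : Type*} [Group H] (f : Phi I →* H) (h1 : ∀ l x, f x = 1 → f (th l x) = 1)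
    (h2 : ∀ l, Commute (f pa) (f (pu l * pa * pu l))) : NK I ≤ f.ker := by
  have h3 : ∀ (w : List I) (l : I), f (iF (thW w (cm (lt 1) (lt (s l))))) = 1 := by
    intro w l
    induction w with
    | nil =>
      rw [thW_nil, map_cm, map_cm]
      have h4 := h2 l
      rw [pu_pa_pu] at h4
      rw [cm, mul_inv_eq_one, mul_inv_eq_iff_eq_mul]
      exact h4
    | cons i w ih =>
      rw [thW_cons, ← th_iF]
      exact h1 i _ ih
  have h4 : KK I ≤ (f.comp iF).ker := KK_le fun v w l => by
    change f (iF (act v (thW w (cm (lt 1) (lt (s l)))))) = 1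
    rw [iF_act, map_mul, map_mul, map_inv, h3, mul_one, mul_inv_cancel]
  rintro _ ⟨x, hx, rfl⟩
  exact h4 hx

theorem U_Xi (l : I) (g : Ga I) : U l * (X g)⁻¹ = (X (s l * g))⁻¹ * U l := by
  rw [mul_inv_eq_iff_eq_mul, mul_assoc, U_X, inv_mul_cancel_left]

section Cov

variable {i j : I}

theorem mk_bet_pw (i j l : I) : mk (bet i j (pw l)) = X (bG i j (s l)) * (X 1)⁻¹ := by
  rw [pw_eq, map_mul, map_mul, map_mul, map_inv, map_inv, map_inv, bet_lt, bet_lt, map_one]
  rfl

theorem s_s_mul {I : Type} (l : I) (y : Ga I) : s l * (s l * y) = y := by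
  rw [← mul_assoc, s_mul_s, one_mul]

/-- the relation between `bet i j` and `th i` -/
theorem bet_th_left (h : i ⋖ j) (x : Phi I) : mk (bet i j (th i x)) = tb i (tb j (tb i (mk (bet i j x)))) := by
  have hij : i < j := h.1
  obtain ⟨w, hw⟩ : ∃ w, w = X (s i) * (X 1 : Np I)⁻¹ := ⟨_, rfl⟩
  obtain ⟨w', hw'⟩ : ∃ w, w = X (s j) * (X 1 : Np I)⁻¹ := ⟨_, rfl⟩
  obtain ⟨P, hP⟩ : ∃ P, P = (X 1 : Np I)⁻¹ * X (s i * s j) := ⟨_, rfl⟩
  obtain ⟨R, hR⟩ : ∃ R, R = X (s i * s j * s i) * (X 1 : Np I)⁻¹ := ⟨_, rfl⟩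
  obtain ⟨V, hV⟩ : ∃ V, V = X (s j * s i) * (X (s i) : Np I)⁻¹ := ⟨_, rfl⟩
  have c1 : (X 1)⁻¹ * X (s i * s j * s i) = R := by
    rw [hR, inv_mul_eq_iff_eq_mul, ← mul_assoc, eq_mul_inv_iff_mul_eq]
    exact (cIJI_lt hij).symm
  have e1 : tb i P * w = R := by
    rw [hP, map_mul, map_inv, tb_X1, tb_i_Xij hij, ← hw]
    calc (X (s i))⁻¹ * (w * X (s i * s j * s i) * w⁻¹) * w = (X (s i))⁻¹ * w * X (s i * s j * s i) := by group
      _ = R := by
        rw [← c1, hw]
        group
  have e2 : tb j w * w' = P := by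
    rw [hw, map_mul, map_inv, tb_X1, tb_j_Xi hij, hw', hP]
    group
  have e3 : tb i w' = V := by
    rw [hw', map_mul, map_inv, tb_X1, tb_i_Xj hij, hV]
  have e4 : R * U i = U i * V := by
    rw [hR, hV, ← mul_assoc (U i), U_X, mul_assoc (X (s i * (s j * s i))) (U i), U_Xi, s_mul_s, ← mul_assoc (s i),
      mul_assoc]
  have f1 : tb i (U i) = w * U i := by rw [tb_U_self, hw]
  have f2 : tb j (U j) = w' * U j := by rw [tb_U_self, hw']
  have f3 : tb i (U j) = U j := tb_U_lt hij
  have f4 : tb j (U i) = w' * U i * w'⁻¹ := by rw [tb_U_gt hij, hw']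
  have b1 : mk (bet i j (pw i)) = R := by
    rw [mk_bet_pw, bG_s, bsG_left, hR]
  have key : tb i (tb j (tb i (U i))) = U i := by
    rw [f1, map_mul, f4]
    have h1 : tb j w * (w' * U i * w'⁻¹) = P * U i * w'⁻¹ := by
      rw [← e2]
      group
    rw [h1, map_mul, map_mul, map_inv, f1, e3]
    have h2 : tb i P * (w * U i) * V⁻¹ = tb i P * w * U i * V⁻¹ := by group
    rw [h2, e1, e4, mul_inv_cancel_right]
  have h1 : (mk.comp ((bet i j).comp (th i)) : Phi I →* Np I) =
      (tb i).comp ((tb j).comp ((tb i).comp (mk.comp (bet i j)))) := by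
    refine phi_ext ?_ fun l => ?_
    · change mk (bet i j (th i pa)) = tb i (tb j (tb i (mk (bet i j pa))))
      rw [bet_pa, mk_pa, tb_X1, tb_j_Xi hij, map_mul, map_mul, map_inv, tb_X1, tb_i_Xij hij, th_pa, pu_pa_pu, bet_lt,
        bG_s, bsG_left, ← hw]
      change X (s i * s j * s i) = _
      have h2 : (X (s i))⁻¹ * (w * X (s i * s j * s i) * w⁻¹) * X (s i) =
          (X (s i))⁻¹ * w * X (s i * s j * s i) * ((X (s i))⁻¹ * w)⁻¹ := by group
      have h3 : (X (s i))⁻¹ * w = (X 1)⁻¹ := by
        rw [hw]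
        group
      rw [h2, h3, c1, hR]
      group
    · change mk (bet i j (th i (pu l))) = tb i (tb j (tb i (mk (bet i j (pu l)))))
      rcases cov_cases h l with h2 | rfl | rfl | h2
      · rw [th_pu_gt h2, map_mul, map_mul, map_mul, map_mul, map_inv, map_inv, b1, bet_pu,
          bsG_of_ne _ h2.ne (h2.trans hij).ne, mk_pu, tb_U_gt h2, ← hw, map_mul (tb j), map_mul (tb j), map_inv (tb j),
          tb_U_gt (h2.trans hij), ← hw']
        have h3 : tb j w * (w' * U l * w'⁻¹) * (tb j w)⁻¹ = P * U l * P⁻¹ := by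
          rw [← e2]
          group
        rw [h3, map_mul, map_mul, map_inv, tb_U_gt h2, ← hw, ← e1]
        group
      · rw [th_pu_self, map_mul, map_mul, b1, bet_pu, bsG_left]
        simp only [map_mul (mk : Phi I →* Np I), map_mul (tb l), map_mul (tb j), mk_pu]
        rw [key, f3, f2, map_mul, e3, f3, ← mul_assoc (U l) V, ← e4]
        group
      · rw [th_pu_lt hij, bet_pu, bsG_right _ hij.ne, mk_pu, key]
      · rw [th_pu_lt (hij.trans h2), bet_pu, bsG_of_ne _ (hij.trans h2).ne' h2.ne', mk_pu, tb_U_lt (hij.trans h2),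
          tb_U_lt h2, tb_U_lt (hij.trans h2)]
  exact DFunLike.congr_fun h1 x

/-- the relation between `bet j i` and `th j` -/
theorem bet_th_inv (h : i ⋖ j) (x : Phi I) : mk (bet j i (th j x)) = tb j (tb i (tb j (mk (bet j i x)))) := by
  have hij : i < j := h.1
  obtain ⟨w, hw⟩ : ∃ w, w = X (s i) * (X 1 : Np I)⁻¹ := ⟨_, rfl⟩
  obtain ⟨w', hw'⟩ : ∃ w, w = X (s j) * (X 1 : Np I)⁻¹ := ⟨_, rfl⟩
  obtain ⟨P, hP⟩ : ∃ P, P = (X 1 : Np I)⁻¹ * X (s i * s j) := ⟨_, rfl⟩
  obtain ⟨R, hR⟩ : ∃ R, R = X (s j * s i * s j) * (X 1 : Np I)⁻¹ := ⟨_, rfl⟩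
  obtain ⟨V, hV⟩ : ∃ V, V = X (s j * s i) * (X (s i) : Np I)⁻¹ := ⟨_, rfl⟩
  have c1 : (X 1)⁻¹ * X (s j * s i * s j) = R := by
    rw [hR, inv_mul_eq_iff_eq_mul, ← mul_assoc, eq_mul_inv_iff_mul_eq]
    exact (cIJI_gt hij).symm
  have c2 : (X (s j) : Np I) * (X 1)⁻¹ = (X 1)⁻¹ * X (s j) := (cX j).symm.inv_right
  have e2 : tb j w * w' = P := by
    rw [hw, map_mul, map_inv, tb_X1, tb_j_Xi hij, hw', hP]
    group
  have e3 : tb i w' = V := by
    rw [hw', map_mul, map_inv, tb_X1, tb_i_Xj hij, hV]
  have e4 : tb j (V * w) * w' = R := by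
    rw [hV, hw, ← mul_assoc, inv_mul_cancel_right, map_mul, map_inv, tb_j_Xji hij, tb_X1, hw', hR]
    group
  have e5 : w' * U j * P = R * U j := by
    have h1 : U j * (X 1)⁻¹ = (X (s j))⁻¹ * U j := by rw [U_Xi, mul_one]
    have h2 : U j * X (s i * s j) = X (s j * s i * s j) * U j := by rw [U_X, ← mul_assoc (s j)]
    calc w' * U j * P = w' * (U j * (X 1)⁻¹) * X (s i * s j) := by
          rw [hP]
          group
      _ = w' * (X (s j))⁻¹ * (U j * X (s i * s j)) := by
          rw [h1]
          group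
      _ = (X 1)⁻¹ * X (s j * s i * s j) * U j := by
          rw [h2, hw', c2]
          group
      _ = R * U j := by rw [c1]
  have f1 : tb i (U i) = w * U i := by rw [tb_U_self, hw]
  have f2 : tb j (U j) = w' * U j := by rw [tb_U_self, hw']
  have f3 : tb i (U j) = U j := tb_U_lt hij
  have f4 : tb j (U i) = w' * U i * w'⁻¹ := by rw [tb_U_gt hij, hw']
  have f5 : U j * w' = w'⁻¹ * U j := by
    rw [hw', ← mul_assoc, U_X, s_mul_s, mul_assoc, U_Xi, mul_one, mul_inv_rev, inv_inv, mul_assoc]
  have b1 : mk (bet j i (pw j)) = R := by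
    rw [mk_bet_pw, bG_s, bsG_left, hR]
  have h1 : (mk.comp ((bet j i).comp (th j)) : Phi I →* Np I) =
      (tb j).comp ((tb i).comp ((tb j).comp (mk.comp (bet j i)))) := by
    refine phi_ext ?_ fun l => ?_
    · change mk (bet j i (th j pa)) = tb j (tb i (tb j (mk (bet j i pa))))
      rw [bet_pa, mk_pa, tb_X1, tb_i_Xj hij, tb_j_Xji hij, th_pa, pu_pa_pu, bet_lt, bG_s, bsG_left]
      rfl
    · change mk (bet j i (th j (pu l))) = tb j (tb i (tb j (mk (bet j i (pu l)))))
      rcases cov_cases h l with h2 | rfl | rfl | h2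
      · rw [th_pu_gt (h2.trans hij), map_mul, map_mul, map_mul, map_mul, map_inv, map_inv, b1, bet_pu,
          bsG_of_ne _ (h2.trans hij).ne h2.ne, mk_pu, tb_U_gt (h2.trans hij), ← hw', map_mul (tb i), map_mul (tb i),
          map_inv (tb i), tb_U_gt h2, ← hw, e3]
        have h3 : V * (w * U l * w⁻¹) * V⁻¹ = V * w * U l * (V * w)⁻¹ := by group
        rw [h3, map_mul, map_mul, map_inv, tb_U_gt (h2.trans hij), ← hw', ← e4]
        group
      · rw [th_pu_gt hij, map_mul, map_mul, map_mul, map_mul, map_inv, map_inv, b1, bet_pu,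
          bsG_right _ hij.ne', mk_pu, f2, map_mul, e3, f3, map_mul, f2]
        have h3 : tb j V = R * P⁻¹ := by
          rw [eq_mul_inv_iff_mul_eq, ← e2, ← mul_assoc, ← map_mul, e4]
        have h4 : w'⁻¹ * P * U j = U j * R := by
          have h5 : U j * (w'⁻¹ * P * U j) = R := by
            calc U j * (w'⁻¹ * P * U j) = w' * (w'⁻¹ * U j) * w'⁻¹ * P * U j := by group
              _ = w' * U j * (w' * w'⁻¹) * P * U j := by
                rw [← f5]
                group
              _ = (w' * U j * P) * U j := by group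
              _ = R := by rw [e5, mul_assoc, U_mul_U, mul_one]
          rw [← h5, ← mul_assoc, U_mul_U, one_mul]
        rw [h3]
        have h5 : R * P⁻¹ * (w' * U j) = R * U j * (w'⁻¹ * P * U j)⁻¹ * U j := by
          rw [mul_inv_rev, mul_inv_rev, inv_inv, U_inv]
          calc R * P⁻¹ * (w' * U j) = R * 1 * P⁻¹ * w' * U j := by group
            _ = _ := by
              rw [← U_mul_U j]
              group
        rw [h5, h4, mul_inv_rev, U_inv]
        calc R * U j * R⁻¹ = R * U j * R⁻¹ * 1 := by group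
          _ = _ := by
            rw [← U_mul_U j]
            group
      · rw [th_pu_self, map_mul, map_mul, b1, bet_pu, bsG_left]
        simp only [map_mul (mk : Phi I →* Np I), mk_pu]
        have h3 : tb l (U l * U i * U l) = U l * U i * U l := by
          rw [map_mul, map_mul, f2, f4]
          calc w' * U l * (w' * U i * w'⁻¹) * (w' * U l) = w' * (U l * w') * U i * U l := by group
            _ = U l * U i * U l := by
              rw [f5]
              group
        simp only [h3, map_mul (tb i), f1, f3, map_mul (tb l), f2, f4]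
        calc R * (U l * U i * U l) = w' * U l * P * U i * U l := by
              rw [e5]
              group
          _ = _ := by
              rw [← e2]
              group
      · rw [th_pu_lt h2, bet_pu, bsG_of_ne _ h2.ne' (hij.trans h2).ne', mk_pu, tb_U_lt h2,
          tb_U_lt (hij.trans h2), tb_U_lt h2]
  exact DFunLike.congr_fun h1 x

end Cov

/-- `bet` of the relations -/
theorem mk_bet_comm (i j l : I) (h : Commute (X 1 : Np I) (X (bG i j (s l)))) :
    Commute (mk.comp (bet i j) pa) (mk.comp (bet i j) (pu l * pa * pu l) : Np I) := by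
  rw [pu_pa_pu]
  change Commute (mk (bet i j pa)) (mk (bet i j (iF (lt (s l)))))
  rw [bet_pa, bet_lt]
  exact h

theorem NK_le_bet {i j : I} (h : i ⋖ j) : NK I ≤ (mk.comp (bet i j)).ker := by
  refine NK_le_ker _ (fun l x hx => ?_) fun l => mk_bet_comm _ _ _ ?_
  · change mk (bet i j (th l x)) = 1
    have hx' : mk (bet i j x) = 1 := hx
    rcases cov_cases h l with h2 | rfl | rfl | h2
    · rw [bet_th (Or.inl ⟨h2, h2.trans h.1⟩), ← tb_mk, hx', map_one]
    · rw [bet_th_left h, hx', map_one, map_one, map_one]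
    · rw [bet_th_right h, ← tb_mk, hx', map_one]
    · rw [bet_th (Or.inr ⟨h.1.trans h2, h2⟩), ← tb_mk, hx', map_one]
  · rw [bG_s, bsG]
    split_ifs
    · exact cIJI_lt h.1
    · exact cX i
    · exact cX l

theorem bet_th_left' {i j : I} (h : i ⋖ j) (x : Phi I) : bet j i (th i x) = th j (bet j i x) := by
  have h1 := bet_th_right h (bet j i x)
  rw [bet_bet h.1.ne] at h1
  rw [← h1, bet_bet h.1.ne']

theorem NK_le_bet' {i j : I} (h : i ⋖ j) : NK I ≤ (mk.comp (bet j i)).ker := by
  refine NK_le_ker _ (fun l x hx => ?_) fun l => mk_bet_comm _ _ _ ?_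
  · change mk (bet j i (th l x)) = 1
    have hx' : mk (bet j i x) = 1 := hx
    rcases cov_cases h l with h2 | rfl | rfl | h2
    · rw [bet_th (Or.inl ⟨h2.trans h.1, h2⟩), ← tb_mk, hx', map_one]
    · rw [bet_th_left' h, ← tb_mk, hx', map_one]
    · rw [bet_th_inv h, hx', map_one, map_one, map_one]
    · rw [bet_th (Or.inr ⟨h2, h.1.trans h2⟩), ← tb_mk, hx', map_one]
  · rw [bG_s, bsG]
    split_ifs
    · exact cIJI_gt h.1
    · exact cX j
    · exact cX l

/-- the automorphism of `Np I` induced by `bet i j` -/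
def bb {i j : I} (h : i ⋖ j) : MulAut (Np I) :=
  MonoidHom.toMulEquiv
    (QuotientGroup.lift (NK I) (mk.comp (bet i j)) fun _ hx => NK_le_bet h hx)
    (QuotientGroup.lift (NK I) (mk.comp (bet j i)) fun _ hx => NK_le_bet' h hx)
    (by
      refine np_ext ?_ fun l => ?_
      · change mk (bet j i (bet i j pa)) = mk pa
        rw [bet_bet h.1.ne']
      · change mk (bet j i (bet i j (pu l))) = mk (pu l)
        rw [bet_bet h.1.ne'])
    (by
      refine np_ext ?_ fun l => ?_
      · change mk (bet i j (bet j i pa)) = mk pa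
        rw [bet_bet h.1.ne]
      · change mk (bet i j (bet j i (pu l))) = mk (pu l)
        rw [bet_bet h.1.ne])

theorem bb_mk {i j : I} (h : i ⋖ j) (x : Phi I) : bb h (mk x) = mk (bet i j x) := rfl

/-- the automorphism of `Np I` induced by `th i` -/
def tt (i : I) : MulAut (Np I) :=
  MonoidHom.toMulEquiv (tb i) (tb i) (MonoidHom.ext fun x => tb_tb i x) (MonoidHom.ext fun x => tb_tb i x)

end Pool.Agent.H98.DT
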