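import Pool.Agent.H98.DT.Ga

/-!
# The group `Phi I`, its endomorphisms `th i` and the relations

`FL I` is the free group with the letters `lt g`, `g` in `Ga I`; `act v` translates the letters. `Phi I` is the semidirect
product of `FL I` and `Ga I`, with the elements `pa = iF (lt 1)` and `pu i = iG (s i)`. The endomorphism `th i` is given by
`a ↦ u_i a u_i`, `u_i ↦ w_i u_i`, `u_j ↦ u_j` for `i < j`, `u_j ↦ w_i u_j w_i⁻¹` for `j < i`, where
`w_i = u_i a u_i a⁻¹`. It is trivial on `Ga I`: `th i (inl x) = inl (thF i x)` and `th i (inr g) = inl (mu i g) * inr g`. `thW w` is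
the composition of the `thF i` for the letters of `w`. `KK` is the normal closure of the elements
`rel v w i = act v (thW w (cm (lt 1) (lt (s i))))`, `cm x y` is the commutator; it is stable under `act v` and `thF i`. `pr e` is the projection to the free group of the
letters of parity `e`. `Mq I` is the quotient of `FL I` by `KK`, and `Kr e` the kernel of the homomorphism which `pr e` induces.
-/

set_option autoImplicit false

namespace Pool.Agent.H98.DT

open Pool.Agent.H98.FJ (permAct permAct_of)

variable {I : Type}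

/-- the free group with the letters `lt g` -/
abbrev FL (I : Type) : Type := FreeGroup (Ga I)

/-- the letters -/
def lt (g : Ga I) : FL I := FreeGroup.of g

/-- the translation of the letters -/
def act (v : Ga I) : FL I →* FL I := (permAct (MulAction.toPermHom (Ga I) (Ga I)) v).toMonoidHom

@[simp]
theorem act_lt (v g : Ga I) : act v (lt g) = lt (v * g) := permAct_of _ _ _

theorem act_one (x : FL I) : act 1 x = x := by
  simp [act]

theorem act_mul (v w : Ga I) (x : FL I) : act (v * w) x = act v (act w x) := by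
  simp [act]

/-- the semidirect product -/
abbrev Phi (I : Type) : Type := FL I ⋊[permAct (MulAction.toPermHom (Ga I) (Ga I))] Ga I

/-- the embedding of the free group -/
def iF : FL I →* Phi I := SemidirectProduct.inl

/-- the embedding of the free product -/
def iG : Ga I →* Phi I := SemidirectProduct.inr

theorem iF_act (v : Ga I) (x : FL I) : iF (act v x) = iG v * iF x * (iG v)⁻¹ := by
  rw [← map_inv]
  exact SemidirectProduct.inl_aut v x

theorem iF_inj : Function.Injective (iF : FL I →* Phi I) := SemidirectProduct.inl_injective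

theorem phi_eq (x : Phi I) : x = iF x.left * iG x.right := (SemidirectProduct.inl_left_mul_inr_right x).symm

/-- the generator `a` -/
def pa : Phi I := iF (lt 1)

/-- the generators `u i` -/
def pu (i : I) : Phi I := iG (s i)

theorem pu_mul_pu (i : I) : pu i * pu i = 1 := by rw [pu, ← map_mul, s_mul_s, map_one]

theorem pu_inv (i : I) : (pu i)⁻¹ = pu i := inv_eq_of_mul_eq_one_left (pu_mul_pu i)

theorem conj_pa (g : Ga I) : iG g * pa * (iG g)⁻¹ = iF (lt g) := by
  rw [pa, ← iF_act, act_lt, mul_one]

theorem pu_pa_pu (i : I) : pu i * pa * pu i = iF (lt (s i)) := by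
  rw [← conj_pa, ← pu, pu_inv]

/-- the elements `w_i` -/
def pw (i : I) : Phi I := pu i * pa * pu i * pa⁻¹

theorem pw_eq (i : I) : pw i = iF (lt (s i) * (lt 1)⁻¹) := by
  rw [pw, pu_pa_pu, map_mul, map_inv]
  rfl

theorem pu_pw (i : I) : pu i * pw i = (pw i)⁻¹ * pu i := by
  have h1 := pu_mul_pu i
  rw [pw, mul_inv_rev, mul_inv_rev, mul_inv_rev, inv_inv, pu_inv]
  calc pu i * (pu i * pa * pu i * pa⁻¹) = (pu i * pu i) * pa * pu i * pa⁻¹ := by group
    _ = pa * pu i * pa⁻¹ * (pu i * pu i) := by rw [h1]; group
    _ = pa * (pu i * (pa⁻¹ * pu i)) * pu i := by group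

/-- homomorphisms from `Phi I` -/
def liftP {H : Type*} [Group H] (x : H) (f : I → H) (hf : ∀ i, f i * f i = 1) : Phi I →* H :=
  SemidirectProduct.lift (FreeGroup.lift fun g => liftG f hf g * x * (liftG f hf g)⁻¹) (liftG f hf) (by
    intro v
    refine FreeGroup.ext_hom _ _ fun g => ?_
    have h1 : permAct (MulAction.toPermHom (Ga I) (Ga I)) v (FreeGroup.of g) = FreeGroup.of (v * g) :=
      permAct_of _ _ _
    simp [h1, mul_assoc])

theorem liftP_iG {H : Type*} [Group H] (x : H) (f : I → H) (hf : ∀ i, f i * f i = 1) (g : Ga I) :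
    liftP x f hf (iG g) = liftG f hf g :=
  SemidirectProduct.lift_inr _ _ _ _

theorem liftP_lt {H : Type*} [Group H] (x : H) (f : I → H) (hf : ∀ i, f i * f i = 1) (g : Ga I) :
    liftP x f hf (iF (lt g)) = liftG f hf g * x * (liftG f hf g)⁻¹ := by
  rw [liftP, iF, SemidirectProduct.lift_inl, lt, FreeGroup.lift_apply_of]

@[simp]
theorem liftP_pa {H : Type*} [Group H] (x : H) (f : I → H) (hf : ∀ i, f i * f i = 1) :
    liftP x f hf pa = x := by
  rw [pa, liftP_lt]
  simp

@[simp]
theorem liftP_pu {H : Type*} [Group H] (x : H) (f : I → H) (hf : ∀ i, f i * f i = 1) (i : I) :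
    liftP x f hf (pu i) = f i := by
  rw [pu, liftP_iG, liftG_s]

theorem phi_ext {H : Type*} [Group H] {f g : Phi I →* H} (h1 : f pa = g pa) (h2 : ∀ i, f (pu i) = g (pu i)) :
    f = g := by
  have h3 : f.comp iG = g.comp iG := ga_ext h2
  have h4 : ∀ v, f (iG v) = g (iG v) := fun v => DFunLike.congr_fun h3 v
  refine SemidirectProduct.hom_ext ?_ h3
  refine FreeGroup.ext_hom _ _ fun v => ?_
  change f (iF (lt v)) = g (iF (lt v))
  rw [← conj_pa]
  simp only [map_mul, map_inv, h1, h4]

/-- the projection to the free group of the letters of parity `e` -/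
def pr (e : ℤˣ) : FL I →* FL I := FreeGroup.lift fun g => if par g = e then lt g else 1

theorem pr_lt (e : ℤˣ) (g : Ga I) : pr e (lt g) = if par g = e then lt g else 1 := FreeGroup.lift_apply_of

theorem units_cases (e f : ℤˣ) : e = f ∨ e = -f := by
  revert e f
  decide

theorem neg_ne (e : ℤˣ) : -e ≠ e := by
  revert e
  decide

/-- the commutator -/
def cm {G : Type*} [Group G] (x y : G) : G := x * y * x⁻¹ * y⁻¹

theorem map_cm {G H : Type*} [Group G] [Group H] (f : G →* H) (x y : G) : f (cm x y) = cm (f x) (f y) := by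
  simp [cm]

section Order

variable [LinearOrder I]

/-- the images of the generators `u j` -/
def thu (i j : I) : Phi I :=
  if i < j then pu j
  else if j = i then pw i * pu i
  else pw i * pu j * (pw i)⁻¹

theorem thu_mul (i j : I) : thu i j * thu i j = 1 := by
  rw [thu]
  split_ifs with h1 h2
  · exact pu_mul_pu j
  · calc (pw i * pu i) * (pw i * pu i) = pw i * (pu i * pw i) * pu i := by group
      _ = pu i * pu i := by rw [pu_pw]; group
      _ = 1 := pu_mul_pu i
  · have h3 := pu_mul_pu j
    generalize pw i = y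
    calc (y * pu j * y⁻¹) * (y * pu j * y⁻¹) = y * (pu j * pu j) * y⁻¹ := by group
      _ = 1 := by rw [h3]; group

/-- the endomorphisms -/
def th (i : I) : Phi I →* Phi I := liftP (pu i * pa * pu i) (thu i) (thu_mul i)

theorem th_pa (i : I) : th i pa = pu i * pa * pu i := liftP_pa _ _ _

theorem th_pu (i j : I) : th i (pu j) = thu i j := liftP_pu _ _ _ _

theorem th_pu_self (i : I) : th i (pu i) = pw i * pu i := by
  rw [th_pu, thu, if_neg (lt_irrefl i), if_pos rfl]

theorem th_pu_lt {i j : I} (h : i < j) : th i (pu j) = pu j := by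
  rw [th_pu, thu, if_pos h]

theorem th_pu_gt {i j : I} (h : j < i) : th i (pu j) = pw i * pu j * (pw i)⁻¹ := by
  rw [th_pu, thu, if_neg h.not_gt, if_neg h.ne]

theorem th_right (i : I) (x : Phi I) : (th i x).right = x.right := by
  have h1 : SemidirectProduct.rightHom.comp (th i) = (SemidirectProduct.rightHom : Phi I →* Ga I) := by
    have ha : SemidirectProduct.rightHom (pa : Phi I) = 1 := SemidirectProduct.rightHom_inl _
    refine phi_ext ?_ fun j => ?_
    · rw [MonoidHom.comp_apply, th_pa, map_mul, map_mul, ha, mul_one, ← map_mul, pu_mul_pu, map_one]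
    · have hw : SemidirectProduct.rightHom (pw i : Phi I) = 1 := by
        rw [pw_eq]
        exact SemidirectProduct.rightHom_inl _
      rw [MonoidHom.comp_apply, th_pu, thu]
      split_ifs with h1 h2
      · rfl
      · rw [map_mul, hw, one_mul, h2]
      · rw [map_mul, map_mul, map_inv, hw]
        simp
  exact DFunLike.congr_fun h1 x

/-- the cocycle -/
def mu (i : I) (g : Ga I) : FL I := (th i (iG g)).left

theorem th_iG (i : I) (g : Ga I) : th i (iG g) = iF (mu i g) * iG g := by
  have h1 := phi_eq (th i (iG g))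
  rw [th_right] at h1
  exact h1

@[simp]
theorem mu_one (i : I) : mu i 1 = 1 := by simp [mu]

theorem mu_mul (i : I) (g h : Ga I) : mu i (g * h) = mu i g * act g (mu i h) := by
  apply iF_inj
  have h1 := th_iG i (g * h)
  rw [map_mul, map_mul, th_iG, th_iG] at h1
  rw [map_mul, iF_act, eq_mul_inv_of_mul_eq h1.symm]
  group

theorem mu_s_self (i : I) : mu i (s i) = lt (s i) * (lt 1)⁻¹ := by
  apply iF_inj
  have h1 := th_iG i (s i)
  rw [← pu, th_pu_self] at h1
  rw [← pw_eq]
  exact (mul_right_cancel h1).symm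

theorem mu_s_lt {i j : I} (h : i < j) : mu i (s j) = 1 := by
  apply iF_inj
  have h1 := th_iG i (s j)
  rw [← pu, th_pu_lt h] at h1
  rw [map_one]
  exact right_eq_mul.1 h1

theorem mu_s_gt {i j : I} (h : j < i) :
    mu i (s j) = lt (s i) * (lt 1)⁻¹ * lt (s j) * (lt (s j * s i))⁻¹ := by
  apply iF_inj
  have h1 := th_iG i (s j)
  rw [← pu, th_pu_gt h] at h1
  have h2 : iF (mu i (s j)) = pw i * (pu j * pw i * (pu j)⁻¹)⁻¹ := by
    rw [eq_mul_inv_of_mul_eq h1.symm]
    group
  have h3 : pu j * pw i * (pu j)⁻¹ = iF (lt (s j * s i) * (lt (s j))⁻¹) := by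
    rw [pw_eq, pu, ← iF_act, map_mul, map_inv, act_lt, act_lt, mul_one]
  rw [h2, h3, pw_eq, ← map_inv, ← map_mul]
  simp only [mul_inv_rev, inv_inv, mul_assoc]

/-- the restriction of `th i` to the free group -/
def thF (i : I) : FL I →* FL I := FreeGroup.lift fun g => mu i g * lt (g * s i) * (mu i g)⁻¹

theorem thF_lt (i : I) (g : Ga I) : thF i (lt g) = mu i g * lt (g * s i) * (mu i g)⁻¹ :=
  FreeGroup.lift_apply_of

theorem th_iF (i : I) (x : FL I) : th i (iF x) = iF (thF i x) := by
  have h1 : (th i).comp iF = iF.comp (thF i) := by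
    refine FreeGroup.ext_hom _ _ fun g => ?_
    change th i (iF (lt g)) = iF (thF i (lt g))
    rw [thF_lt, ← conj_pa, map_mul, map_mul, map_inv, th_iG, th_pa, pu_pa_pu, map_mul, map_mul, map_inv]
    have h2 := iF_act g (lt (s i))
    rw [act_lt] at h2
    rw [h2]
    group
  exact DFunLike.congr_fun h1 x

theorem thF_act (i : I) (v : Ga I) (x : FL I) :
    thF i (act v x) = mu i v * act v (thF i x) * (mu i v)⁻¹ := by
  apply iF_inj
  rw [← th_iF, iF_act, map_mul, map_mul, map_inv, th_iG, th_iF, map_mul, map_mul, map_inv, iF_act]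
  group

/-- the composition of the `thF i` for the letters of `w`, the first letter is applied last -/
def thW : List I → FL I →* FL I
  | [] => MonoidHom.id _
  | i :: w => (thF i).comp (thW w)

@[simp]
theorem thW_nil (x : FL I) : thW ([] : List I) x = x := rfl

@[simp]
theorem thW_cons (i : I) (w : List I) (x : FL I) : thW (i :: w) x = thF i (thW w x) := rfl

/-- the relations -/
def rel (v : Ga I) (w : List I) (i : I) : FL I := act v (thW w (cm (lt 1) (lt (s i))))

variable (I) in
/-- the normal closure of the relations -/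
def KK : Subgroup (FL I) := Subgroup.normalClosure {x | ∃ v w i, x = rel v w i}

instance : (KK I).Normal := Subgroup.normalClosure_normal

theorem rel_mem (v : Ga I) (w : List I) (i : I) : rel v w i ∈ KK I :=
  Subgroup.subset_normalClosure ⟨v, w, i, rfl⟩

theorem KK_le {N : Subgroup (FL I)} [N.Normal] (h : ∀ v w i, rel v w i ∈ N) : KK I ≤ N := by
  refine Subgroup.normalClosure_le_normal ?_
  rintro _ ⟨v, w, i, rfl⟩
  exact h v w i

theorem act_mem (v : Ga I) {x : FL I} (hx : x ∈ KK I) : act v x ∈ KK I := by
  have h1 : KK I ≤ (KK I).comap (act v) := KK_le fun w l i => by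
    rw [Subgroup.mem_comap, rel, ← act_mul]
    exact rel_mem _ _ _
  exact h1 hx

theorem thF_mem (i : I) {x : FL I} (hx : x ∈ KK I) : thF i x ∈ KK I := by
  have h1 : KK I ≤ (KK I).comap (thF i) := KK_le fun w l j => by
    rw [Subgroup.mem_comap, rel, thF_act, ← thW_cons]
    exact (inferInstance : (KK I).Normal).conj_mem _ (rel_mem _ _ _) _
  exact h1 hx

theorem thW_lt (w : List I) (g : Ga I) : ∃ (x : FL I) (h : Ga I), thW w (lt g) = x * lt h * x⁻¹ ∧
    par h = (-1) ^ w.length * par g := by
  induction w with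
  | nil => exact ⟨1, g, by simp, by simp⟩
  | cons i w ih =>
    obtain ⟨x, h, h1, h2⟩ := ih
    refine ⟨thF i x * mu i h, h * s i, ?_, ?_⟩
    · rw [thW_cons, h1, map_mul, map_mul, map_inv, thF_lt]
      group
    · rw [map_mul, h2, par_s, List.length_cons, pow_succ]
      simp

theorem pr_rel (e : ℤˣ) (v : Ga I) (w : List I) (i : I) : pr e (rel v w i) = 1 := by
  obtain ⟨x, g, h1, h2⟩ := thW_lt w (1 : Ga I)
  obtain ⟨y, h, h3, h4⟩ := thW_lt w (s i)
  have hv : ∀ (z : FL I) (k : Ga I), pr e (act v (z * lt k * z⁻¹)) =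
      pr e (act v z) * (if par (v * k) = e then lt (v * k) else 1) * (pr e (act v z))⁻¹ := fun z k => by
    rw [map_mul, map_mul, map_inv, map_mul, map_mul, map_inv, act_lt, pr_lt]
  rw [rel, map_cm, h1, h3, map_cm, map_cm, hv, hv]
  have h5 : par (v * h) = - par (v * g) := by
    rw [map_mul, map_mul, h2, h4, map_one, par_s]
    simp
  rw [h5]
  rcases units_cases (par (v * g)) e with h6 | h6
  · have h7 : -par (v * g) ≠ e := by
      rw [h6]
      exact neg_ne e
    rw [if_neg h7, mul_one, mul_inv_cancel]
    simp [cm]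
  · have h7 : par (v * g) ≠ e := by
      rw [h6]
      exact neg_ne e
    rw [if_neg h7, mul_one, mul_inv_cancel]
    simp [cm]

theorem KK_le_ker (e : ℤˣ) : KK I ≤ (pr e : FL I →* FL I).ker := KK_le fun v w i => pr_rel e v w i

variable (I) in
/-- the quotient of the free group by the relations -/
abbrev Mq : Type := FL I ⧸ KK I

/-- the homomorphisms from the quotient which are induced by the projections -/
def prM (e : ℤˣ) : Mq I →* FL I := QuotientGroup.lift (KK I) (pr e) fun _ hx => KK_le_ker e hx

theorem prM_mk (e : ℤˣ) (x : FL I) : prM e (QuotientGroup.mk' (KK I) x) = pr e x := rfl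

variable (I) in
/-- the kernels of the projections -/
def Kr (e : ℤˣ) : Subgroup (Mq I) := (prM e).ker

end Order

end Pool.Agent.H98.DT
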