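import Pool.Agent.H98.DT.Ps

/-!
# The equivariant homomorphism from `Np`
-/

set_option autoImplicit false

namespace Pool.Agent.H98.DT

theorem cov_fin {m : ℕ} {i j : Fin m} (h : i.val + 1 = j.val) : i ⋖ j :=
  ⟨by rw [Fin.lt_def]; omega, fun c h1 h2 => by
    rw [Fin.lt_def] at h1 h2
    omega⟩

variable {G : Type*} [Group G]

namespace PS

variable {m : ℕ} {b : ℕ → G} {s r : G} (h : PS m b s r)

/-- the image of `a` -/
noncomputable def aa : G := h.exists_a.choose

theorem aa_comm {k : ℕ} (hk : k < m) : b k * h.aa = h.aa * b k := h.exists_a.choose_spec.1 k hk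

theorem aa_s : h.aa * s = uf m b r 0 * s * uf m b r 0 * h.aa := h.exists_a.choose_spec.2.1

theorem u_aa : uf m b r 0 * h.aa = h.aa * (s * uf m b r 0 * s) := h.exists_a.choose_spec.2.2

theorem y_aa : uf m b r 0 * s * h.aa = h.aa * (uf m b r 0 * s) := by
  have h1 := h.aa_s
  have h2 := h.u_aa
  have h3 : s⁻¹ = s := inv_eq_of_mul_eq_one_left h.ss
  have h4 : (uf m b r 0)⁻¹ = uf m b r 0 := inv_eq_of_mul_eq_one_left (uf_mul b h.rr 0)
  have h5 := uf_mul (m := m) b h.rr 0
  have h6 := h.ss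
  generalize h.aa = a at *
  generalize uf m b r 0 = u at *
  calc u * s * a = u * s * a * (s * u * s) * (s⁻¹ * u⁻¹ * s⁻¹) := by group
    _ = u * s * (a * (s * u * s)) * (s * u * s) := by
      rw [h3, h4]
      group
    _ = (u * s * u * a) * (s * u * s) := by
      rw [← h2]
      group
    _ = a * (s * s) * u * s := by
      rw [← h1]
      group
    _ = a * (u * s) := by
      rw [h6]
      group

theorem s_aa_s : s * h.aa * s = uf m b r 0 * h.aa * uf m b r 0 := by
  have h1 := h.y_aa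
  have h3 : s⁻¹ = s := inv_eq_of_mul_eq_one_left h.ss
  have h4 : (uf m b r 0)⁻¹ = uf m b r 0 := inv_eq_of_mul_eq_one_left (uf_mul b h.rr 0)
  generalize h.aa = a at *
  generalize uf m b r 0 = u at *
  calc s * a * s = u⁻¹ * (u * s * a) * s := by group
    _ = u * a * u * (s * s) := by
      rw [h1, h4]
      group
    _ = u * a * u := by rw [h.ss, mul_one]

theorem s_u_s : s * uf m b r 0 * s = (uf m b r 0 * h.aa * uf m b r 0 * h.aa⁻¹) * uf m b r 0 := by
  have h1 := h.aa_s
  have h2 := h.s_aa_s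
  have h5 := uf_mul (m := m) b h.rr 0
  rw [← h2]
  have h6 : s * h.aa * s * h.aa⁻¹ = s * uf m b r 0 * s * uf m b r 0 := by
    calc s * h.aa * s * h.aa⁻¹ = s * (h.aa * s) * h.aa⁻¹ := by group
      _ = _ := by
        rw [h1]
        group
  rw [h6, mul_assoc _ (uf m b r 0) (uf m b r 0), h5, mul_one]

theorem comm0 : Commute h.aa (uf m b r 0 * h.aa * uf m b r 0) := by
  have h1 : Commute h.aa (uf m b r 0 * s) := h.y_aa.symm
  have h2 := h.s_u_s
  have h3 : s⁻¹ = s := inv_eq_of_mul_eq_one_left h.ss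
  have h4 : (uf m b r 0)⁻¹ = uf m b r 0 := inv_eq_of_mul_eq_one_left (uf_mul b h.rr 0)
  have h5 : uf m b r 0 * h.aa * uf m b r 0 = (uf m b r 0 * s)⁻¹ * (uf m b r 0 * s)⁻¹ * h.aa := by
    rw [mul_inv_rev, h3, h4]
    calc uf m b r 0 * h.aa * uf m b r 0
        = (uf m b r 0 * h.aa * uf m b r 0 * h.aa⁻¹) * uf m b r 0 * (uf m b r 0)⁻¹ * h.aa := by group
      _ = s * uf m b r 0 * s * (uf m b r 0)⁻¹ * h.aa := by rw [← h2]
      _ = _ := by
        rw [h4]
        group
  rw [h5]
  exact (h1.inv_right.mul_right h1.inv_right).mul_right (Commute.refl _)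

theorem comm_all {l : ℕ} (hl : l ≤ m) : Commute h.aa (uf m b r l * h.aa * uf m b r l) := by
  induction l with
  | zero => exact h.comm0
  | succ l ih =>
    have h1 := ih (by omega)
    have h2 : Commute (b l) h.aa := h.aa_comm (by omega)
    have h3 : uf m b r (l + 1) = (b l)⁻¹ * uf m b r l * b l := by
      rw [uf_step b r (show l < m by omega)]
      group
    have h4 := h1.map (MulAut.conj (b l)⁻¹).toMonoidHom
    have h5 : ∀ y, (MulAut.conj (b l)⁻¹).toMonoidHom y = (b l)⁻¹ * y * b l := fun y => by simp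
    rw [h5, h5] at h4
    have h6 : (b l)⁻¹ * h.aa * b l = h.aa := by rw [h2.inv_left.eq, inv_mul_cancel_right]
    have h7 : (b l)⁻¹ * (uf m b r l * h.aa * uf m b r l) * b l =
        uf m b r (l + 1) * h.aa * uf m b r (l + 1) := by
      rw [h3]
      calc (b l)⁻¹ * (uf m b r l * h.aa * uf m b r l) * b l
          = (b l)⁻¹ * uf m b r l * b l * ((b l)⁻¹ * h.aa * b l) * ((b l)⁻¹ * uf m b r l * b l) := by group
        _ = _ := by rw [h6]
    rwa [h6, h7] at h4

include h in
theorem s_u {l : ℕ} (hl : 0 < l) (hl' : l ≤ m) : Commute s (uf m b r l) := by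
  obtain ⟨j, hj⟩ : ∃ j, m = l + j := ⟨m - l, by omega⟩
  induction j generalizing l with
  | zero =>
    obtain rfl : l = m := by omega
    rw [uf_last]
    exact h.sr
  | succ j ih =>
    rw [uf_step b r (show l < m by omega)]
    have h1 : Commute s (b l) := (h.sb l hl (by omega)).symm
    exact (h1.mul_right (ih (by omega) (by omega) (by omega))).mul_right h1.inv_right

/-- the homomorphism from `Phi` -/
noncomputable def psP : Phi (Fin (m + 1)) →* G :=
  liftP h.aa (fun i => uf m b r i.val) fun i => uf_mul b h.rr i.val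

theorem psP_pa : h.psP pa = h.aa := liftP_pa _ _ _

theorem psP_pu (i : Fin (m + 1)) : h.psP (pu i) = uf m b r i.val := liftP_pu _ _ _ _

theorem psP_bet {i j : Fin (m + 1)} (hij : i.val + 1 = j.val) (x : Phi (Fin (m + 1))) :
    h.psP (bet i j x) = b i.val * h.psP x * (b i.val)⁻¹ := by
  have him : i.val < m := by omega
  have h1 : (h.psP).comp (bet i j) = (MulAut.conj (b i.val)).toMonoidHom.comp h.psP := by
    refine phi_ext ?_ fun l => ?_
    · change h.psP (bet i j pa) = b i.val * h.psP pa * (b i.val)⁻¹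
      rw [bet_pa, psP_pa, h.aa_comm him, mul_inv_cancel_right]
    · change h.psP (bet i j (pu l)) = b i.val * h.psP (pu l) * (b i.val)⁻¹
      have hf : (fun k => h.psP (pu k)) = fun k : Fin (m + 1) => uf m b r k.val := funext fun k => h.psP_pu k
      rw [bet_pu, map_bsG, hf, psP_pu, eq_mul_inv_iff_mul_eq]
      by_cases h2 : l = i
      · subst h2
        rw [bsG_left, h.ru.x2 _ him, hij]
        have h4 : (uf m b r l.val)⁻¹ = uf m b r l.val := inv_eq_of_mul_eq_one_left (uf_mul b h.rr _)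
        rw [h4]
      · by_cases h3 : l = j
        · subst h3
          rw [bsG_right _ (Ne.symm h2), ← hij, h.ru.x1 _ him]
        · rw [bsG_of_ne _ h2 h3]
          refine (h.ru.x3 _ him l.val (by omega) (fun h4 => h2 (Fin.ext h4)) fun h4 => h3 (Fin.ext ?_)).symm
          omega
  exact DFunLike.congr_fun h1 x

theorem psP_th (i : Fin (m + 1)) (x : Phi (Fin (m + 1))) :
    h.psP (th i x) = tf s b i.val * h.psP x * (tf s b i.val)⁻¹ := by
  obtain ⟨k, hk⟩ := i
  induction k generalizing x with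
  | zero =>
    have h3 : s⁻¹ = s := inv_eq_of_mul_eq_one_left h.ss
    have h1 : (h.psP).comp (th ⟨0, hk⟩) = (MulAut.conj (tf s b 0)).toMonoidHom.comp h.psP := by
      refine phi_ext ?_ fun l => ?_
      · change h.psP (th ⟨0, hk⟩ pa) = tf s b 0 * h.psP pa * (tf s b 0)⁻¹
        rw [th_pa, map_mul, map_mul, psP_pa, psP_pu, tf_zero, h3, h.s_aa_s]
      · change h.psP (th ⟨0, hk⟩ (pu l)) = tf s b 0 * h.psP (pu l) * (tf s b 0)⁻¹
        rw [tf_zero, h3, psP_pu]
        rcases Nat.eq_zero_or_pos l.val with h4 | h4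
        · obtain rfl : l = ⟨0, hk⟩ := Fin.ext h4
          rw [th_pu_self, map_mul, pw, map_mul, map_mul, map_mul, map_inv, psP_pa, psP_pu, h.s_u_s]
        · rw [th_pu_lt (by rw [Fin.lt_def]; exact h4), psP_pu, (h.s_u h4 (by omega)).eq, mul_assoc, h.ss, mul_one]
    exact DFunLike.congr_fun h1 x
  | succ k ih =>
    have hk' : k < m + 1 := by omega
    have h1 := bet_th_right (cov_fin (i := ⟨k, hk'⟩) (j := ⟨k + 1, hk⟩) rfl) x
    have h2 := congrArg h.psP h1
    rw [h.psP_bet rfl, ih _ hk', h.psP_bet rfl] at h2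
    change h.psP (th ⟨k + 1, hk⟩ x) = tf s b (k + 1) * h.psP x * (tf s b (k + 1))⁻¹
    rw [tf_succ]
    rw [mul_inv_eq_iff_eq_mul, mul_assoc (b k) _ _] at h2
    have h3 : h.psP (th ⟨k + 1, hk⟩ x) =
        (b k)⁻¹ * (tf s b k * (b k * h.psP x * (b k)⁻¹) * (tf s b k)⁻¹ * b k) := by
      rw [eq_inv_mul_iff_mul_eq]
      simpa only [mul_assoc] using h2
    rw [h3]
    group

theorem NK_le_psP : NK (Fin (m + 1)) ≤ h.psP.ker := by
  refine NK_le_ker _ (fun l x hx => ?_) fun l => ?_
  · rw [psP_th, hx, mul_one, mul_inv_cancel]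
  · rw [map_mul, map_mul, psP_pa, psP_pu]
    exact h.comm_all (by omega)

/-- the homomorphism from `Np` -/
noncomputable def psN : Np (Fin (m + 1)) →* G :=
  QuotientGroup.lift (NK (Fin (m + 1))) h.psP fun _ hx => h.NK_le_psP hx

theorem psN_mk (x : Phi (Fin (m + 1))) : h.psN (Pool.Agent.H98.DT.mk x) = h.psP x := rfl

theorem psN_U (l : Fin (m + 1)) : h.psN (U l) = uf m b r l.val := h.psP_pu l

theorem psN_bb {i j : Fin (m + 1)} (hij : i.val + 1 = j.val) (x : Np (Fin (m + 1))) :
    h.psN (bb (cov_fin hij) x) = b i.val * h.psN x * (b i.val)⁻¹ := by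
  obtain ⟨x, rfl⟩ := mk_surj x
  rw [bb_mk, psN_mk, psN_mk, h.psP_bet hij]

theorem psN_tt (i : Fin (m + 1)) (x : Np (Fin (m + 1))) :
    h.psN (tt i x) = tf s b i.val * h.psN x * (tf s b i.val)⁻¹ := by
  obtain ⟨x, rfl⟩ := mk_surj x
  exact h.psP_th i x

end PS

end Pool.Agent.H98.DT
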