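import Pool.Agent.H98.DT.Ax
import Pool.Agent.H98.DT.Pn

/-!
# The action of the Artin group of type `D` on `Np` and the semidirect product
-/

set_option autoImplicit false

namespace Pool.Agent.H98.DT

open Pool.Agent.H52.PAG

section Bg

variable {I : Type} [DecidableEq I]

theorem bG_left (i j : I) : bG i j (s i) = s i * s j * s i := by rw [bG_s, bsG_left]

theorem bG_right {i j : I} (h : i ≠ j) : bG i j (s j) = s i := by rw [bG_s, bsG_right _ h]

theorem bG_ne {i j l : I} (h1 : l ≠ i) (h2 : l ≠ j) : bG i j (s l) = s l := by rw [bG_s, bsG_of_ne _ h1 h2]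

theorem bG_braid {i j l : I} (hij : i ≠ j) (hjl : j ≠ l) (hil : i ≠ l) (g : Ga I) :
    bG i j (bG j l (bG i j g)) = bG j l (bG i j (bG j l g)) := by
  have h1 : (bG i j).comp ((bG j l).comp (bG i j)) = (bG j l).comp ((bG i j).comp (bG j l)) := by
    refine ga_ext fun k => ?_
    change bG i j (bG j l (bG i j (s k))) = bG j l (bG i j (bG j l (s k)))
    by_cases h1 : k = i
    · subst h1
      simp only [bG_left, map_mul, bG_ne hij hil, bG_ne hil.symm hjl.symm, bG_right hij]
      calc s k * s j * s k * (s k * s l * s k) * (s k * s j * s k)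
          = s k * s j * (s k * s k) * s l * (s k * s k) * s j * s k := by group
        _ = _ := by
          rw [s_mul_s]
          group
    · by_cases h2 : k = j
      · subst h2
        simp only [bG_left, map_mul, bG_right hij, bG_ne hij hil, bG_ne hil.symm hjl.symm, bG_right hjl]
      · by_cases h3 : k = l
        · subst h3
          simp only [bG_right hij, bG_right hjl, bG_ne hil.symm hjl.symm, bG_ne hij hil]
        · simp only [bG_ne h1 h2, bG_ne h2 h3]
  exact DFunLike.congr_fun h1 g

theorem bG_comm {i j k l : I} (hik : i ≠ k) (hil : i ≠ l) (hjk : j ≠ k) (hjl : j ≠ l) (g : Ga I) :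
    bG i j (bG k l g) = bG k l (bG i j g) := by
  have hA : ∀ x, bG i j (bsG s k l x) = bsG s k l x ∨ (x ≠ k ∧ x ≠ l) := fun x => by
    by_cases h1 : x = k
    · subst h1
      refine Or.inl ?_
      rw [bsG_left, map_mul, map_mul, bG_ne hik.symm hjk.symm, bG_ne hil.symm hjl.symm]
    · by_cases h2 : x = l
      · subst h2
        refine Or.inl ?_
        rw [bsG_right _ (Ne.symm h1), bG_ne hik.symm hjk.symm]
      · exact Or.inr ⟨h1, h2⟩
  have hB : ∀ x, bG k l (bsG s i j x) = bsG s i j x ∨ (x ≠ i ∧ x ≠ j) := fun x => by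
    by_cases h1 : x = i
    · subst h1
      refine Or.inl ?_
      rw [bsG_left, map_mul, map_mul, bG_ne hik hil, bG_ne hjk hjl]
    · by_cases h2 : x = j
      · subst h2
        refine Or.inl ?_
        rw [bsG_right _ (Ne.symm h1), bG_ne hik hil]
      · exact Or.inr ⟨h1, h2⟩
  have h1 : (bG i j).comp (bG k l) = (bG k l).comp (bG i j) := by
    refine ga_ext fun x => ?_
    change bG i j (bG k l (s x)) = bG k l (bG i j (s x))
    rw [bG_s k l, bG_s i j]
    by_cases h2 : x = i ∨ x = j
    · have h3 : x ≠ k ∧ x ≠ l := by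
        rcases h2 with rfl | rfl
        · exact ⟨hik, hil⟩
        · exact ⟨hjk, hjl⟩
      rw [bsG_of_ne _ h3.1 h3.2, bG_s]
      rcases hB x with h4 | h4
      · exact h4.symm
      · exfalso
        rcases h2 with h2 | h2
        · exact h4.1 h2
        · exact h4.2 h2
    · rw [not_or] at h2
      rw [bsG_of_ne s h2.1 h2.2, bG_s]
      rcases hA x with h4 | h4
      · exact h4
      · rw [bsG_of_ne _ h4.1 h4.2, bG_s, bsG_of_ne _ h2.1 h2.2]
  exact DFunLike.congr_fun h1 g

omit [DecidableEq I] in
/-- equalities between compositions of the automorphisms of `Phi` -/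
theorem phi_fix {f g : Phi I →* Phi I} {f' g' : Ga I →* Ga I} (h1 : f pa = pa) (h2 : g pa = pa)
    (h3 : ∀ x, f (iG x) = iG (f' x)) (h4 : ∀ x, g (iG x) = iG (g' x)) (h5 : ∀ x, f' x = g' x) : f = g := by
  refine phi_ext (h1.trans h2.symm) fun l => ?_
  rw [pu, h3, h4, h5]

end Bg

variable (n : ℕ)

/-- the index set of the strands -/
abbrev St : Type := Fin (n + 3 + 1)

variable {n}

/-- the braid automorphisms of `Np` -/
def bN (k : Fin (n + 3)) : MulAut (Np (St n)) :=
  bb (cov_fin (i := k.castSucc) (j := k.succ) rfl)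

theorem bN_mk (k : Fin (n + 3)) (x : Phi (St n)) : bN k (mk x) = mk (bet k.castSucc k.succ x) := rfl

theorem brel_N : BRel (bN : Fin (n + 3) → MulAut (Np (St n))) where
  br k l h := by
    ext x
    obtain ⟨x, rfl⟩ := mk_surj x
    change bN k (bN l (bN k (mk x))) = bN l (bN k (bN l (mk x)))
    simp only [bN_mk]
    have hkl : l.castSucc = k.succ := Fin.ext (by simp [h])
    rw [hkl]
    have h1 : k.castSucc ≠ k.succ := by
      intro h2
      have h3 := congrArg Fin.val h2
      simp at h3
    have h2 : k.succ ≠ l.succ := by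
      intro h2
      have h3 := congrArg Fin.val h2
      simp only [Fin.val_succ] at h3
      omega
    have h3 : k.castSucc ≠ l.succ := by
      intro h2
      have h3 := congrArg Fin.val h2
      simp only [Fin.val_succ, Fin.val_castSucc] at h3
      omega
    have h4 : (bet k.castSucc k.succ).comp ((bet k.succ l.succ).comp (bet k.castSucc k.succ)) =
        (bet k.succ l.succ).comp ((bet k.castSucc k.succ).comp (bet k.succ l.succ)) := by
      refine phi_fix (f' := (bG k.castSucc k.succ).comp ((bG k.succ l.succ).comp (bG k.castSucc k.succ)))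
        (g' := (bG k.succ l.succ).comp ((bG k.castSucc k.succ).comp (bG k.succ l.succ))) ?_ ?_ ?_ ?_ ?_
      · simp
      · simp
      · intro x
        simp only [MonoidHom.comp_apply, bet_iG]
      · intro x
        simp only [MonoidHom.comp_apply, bet_iG]
      · intro x
        exact bG_braid h1 h2 h3 x
    exact congrArg mk (DFunLike.congr_fun h4 x)
  co k l h := by
    ext x
    obtain ⟨x, rfl⟩ := mk_surj x
    change bN k (bN l (mk x)) = bN l (bN k (mk x))
    simp only [bN_mk]
    have hne : ∀ a c : St n, a.val ≠ c.val → a ≠ c := fun a c h1 h2 => h1 (congrArg Fin.val h2)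
    have h4 : (bet k.castSucc k.succ).comp (bet l.castSucc l.succ) =
        (bet l.castSucc l.succ).comp (bet k.castSucc k.succ) := by
      refine phi_fix (f' := (bG k.castSucc k.succ).comp (bG l.castSucc l.succ))
        (g' := (bG l.castSucc l.succ).comp (bG k.castSucc k.succ)) ?_ ?_ ?_ ?_ ?_
      · simp
      · simp
      · intro x
        simp only [MonoidHom.comp_apply, bet_iG]
      · intro x
        simp only [MonoidHom.comp_apply, bet_iG]
      · intro x
        refine bG_comm ?_ ?_ ?_ ?_ x <;> refine hne _ _ ?_ <;>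
          simp only [Fin.val_succ, Fin.val_castSucc] <;> omega
    exact congrArg mk (DFunLike.congr_fun h4 x)

theorem tt_apply (i : St n) (x : Np (St n)) : tt i x = tb i x := rfl

theorem tt_mul (i : St n) : tt i * tt i = 1 := by
  ext x
  exact tb_tb i x

theorem tt_bN {k : Fin (n + 3)} (hk : k ≠ 0) : tt 0 * bN k = bN k * tt 0 := by
  ext x
  obtain ⟨x, rfl⟩ := mk_surj x
  change tb 0 (mk (bet k.castSucc k.succ x)) = mk (bet k.castSucc k.succ (th 0 x))
  have h1 : 0 < k.val := Nat.pos_of_ne_zero fun h => hk (Fin.ext h)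
  rw [bet_th (Or.inl ⟨by rw [Fin.lt_def]; exact h1, by rw [Fin.lt_def]; simp⟩), tb_mk]

theorem bN_tt : bN (0 : Fin (n + 3)) * tt 0 * bN 0 * tt 0 = tt 0 * bN 0 * tt 0 * bN 0 := by
  have hc : (0 : St n) ⋖ 1 := cov_fin (by simp)
  have h0 : (0 : Fin (n + 3)).castSucc = (0 : St n) := rfl
  have h1 : (0 : Fin (n + 3)).succ = (1 : St n) := rfl
  have e1 : bN (0 : Fin (n + 3)) * tt 0 = tt 0 * tt 1 * tt 0 * bN 0 := by
    ext x
    obtain ⟨x, rfl⟩ := mk_surj x
    change mk (bet (0 : Fin (n + 3)).castSucc (0 : Fin (n + 3)).succ (th 0 x)) =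
      tb 0 (tb 1 (tb 0 (mk (bet (0 : Fin (n + 3)).castSucc (0 : Fin (n + 3)).succ x))))
    rw [h0, h1]
    exact bet_th_left hc x
  have e2 : bN (0 : Fin (n + 3)) * tt 1 = tt 0 * bN 0 := by
    ext x
    obtain ⟨x, rfl⟩ := mk_surj x
    change mk (bet (0 : Fin (n + 3)).castSucc (0 : Fin (n + 3)).succ (th 1 x)) =
      tb 0 (mk (bet (0 : Fin (n + 3)).castSucc (0 : Fin (n + 3)).succ x))
    rw [h0, h1, bet_th_right hc, tb_mk]
  have e3 := tt_mul (0 : St n)
  generalize bN (0 : Fin (n + 3)) = B at *
  generalize tt (0 : St n) = T at *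
  generalize tt (1 : St n) = T' at *
  have e4 : T' = B⁻¹ * T * B := by
    rw [mul_assoc, ← e2]
    group
  rw [e4] at e1
  -- `B T = T B⁻¹ T B T B`
  calc B * T * B * T = B * T * (B * T) := by group
    _ = B * T * (T * (B⁻¹ * T * B) * T * B) := congrArg (B * T * ·) e1
    _ = B * (T * T) * B⁻¹ * T * B * T * B := by group
    _ = T * B * T * B := by
      rw [e3]
      group

theorem drel_N : DRel 1 (bN : Fin (n + 3) → MulAut (Np (St n))) (tt 0 * bN 0 * tt 0) := by
  refine brel_N.twin (tt_mul 0) 0 1 (fun k hk => tt_bN hk) bN_tt (fun k hk => ?_) fun k hk => ?_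
  · left
    rw [hk]
    rfl
  · by_cases h1 : k.val = 0
    · left
      exact Fin.ext h1
    · right
      left
      have h2 : (0 : Fin (n + 3)).val = 0 := rfl
      omega

variable (n) in
/-- the action of the Artin group of type `D` -/
def aD : Art (cmD n 1) →* MulAut (Np (St n)) := liftD drel_N

variable (n) in
/-- the semidirect product -/
abbrev EE : Type := Np (St n) ⋊[aD n] Art (cmD n 1)

end Pool.Agent.H98.DT
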