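import Pool.Agent.H98.DT.Em

/-!
# The embedding of the Artin group of affine type `D`

`phE : Art (cmT n) →* EE n` maps the generators `b k` and `q` to the generators of the Artin group of type `D` and the last
generator to `r * b * r`, `r = inl (U last)`.
-/

set_option autoImplicit false

namespace Pool.Agent.H98.DT

open Pool.Agent.H52.PAG

section Map

variable {n : ℕ} {G H : Type*} [Group G] [Group H]

theorem BRel.map {b : Fin (n + 3) → G} (h : BRel b) (φ : G →* H) : BRel fun k => φ (b k) where
  br k l hkl := by simpa only [map_mul] using congrArg φ (h.br k l hkl)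
  co k l hkl := by simpa only [map_mul] using congrArg φ (h.co k l hkl)

theorem DRel.map {c : ℕ} {b : Fin (n + 3) → G} {q : G} (h : DRel c b q) (φ : G →* H) :
    DRel c (fun k => φ (b k)) (φ q) where
  toBRel := h.toBRel.map φ
  qbr k hk := by simpa only [map_mul] using congrArg φ (h.qbr k hk)
  qco k hk := by simpa only [map_mul] using congrArg φ (h.qco k hk)

/-- the first vertex of the path again -/
theorem BRel.fold {b : Fin (n + 3) → G} (h : BRel b) : DRel 1 b (b 0) where
  toBRel := h
  qbr k hk := h.br 0 k (by rw [hk]; rfl)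
  qco k hk := by
    by_cases h1 : k.val = 0
    · rw [show k = 0 from Fin.ext h1]
    · have h2 : (0 : Fin (n + 3)).val = 0 := rfl
      exact h.co 0 k (by omega)

/-- the involution at the last vertex of the path -/
theorem BRel.twin_last {b : Fin (n + 3) → G} (h : BRel b) {s : G} (hs : s * s = 1)
    (hsb : ∀ k, k ≠ Fin.last (n + 2) → s * b k = b k * s)
    (he : b (Fin.last (n + 2)) * s * b (Fin.last (n + 2)) * s = s * b (Fin.last (n + 2)) * s * b (Fin.last (n + 2))) :
    DRel (n + 1) b (s * b (Fin.last (n + 2)) * s) := by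
  refine h.twin hs (Fin.last (n + 2)) (n + 1) hsb he (fun k hk => ?_) fun k hk => ?_
  · right
    rw [hk, Fin.val_last]
  · have h1 := k.2
    by_cases h2 : k.val = n + 2
    · left
      exact Fin.ext h2
    · right
      right
      rw [Fin.val_last]
      omega

end Map

variable {n : ℕ}

theorem bN_U (k : Fin (n + 3)) (l : St n) : bN k (U l) = bsG U k.castSucc k.succ l := by
  change mk (bet k.castSucc k.succ (pu l)) = _
  rw [bet_pu, map_bsG]
  rfl

theorem bN_U_last {k : Fin (n + 3)} (hk : k ≠ Fin.last (n + 2)) : bN k (U (Fin.last (n + 3))) = U (Fin.last (n + 3)) := by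
  rw [bN_U, bsG_of_ne]
  · intro h
    have h1 := congrArg Fin.val h
    have h2 := k.2
    simp only [Fin.val_last, Fin.val_castSucc] at h1
    omega
  · intro h
    have h1 := congrArg Fin.val h
    simp only [Fin.val_last, Fin.val_succ] at h1
    exact hk (Fin.ext (by rw [Fin.val_last]; omega))

/-- the generators of the semidirect product -/
def bE (k : Fin (n + 3)) : EE n := SemidirectProduct.inr (gen (cmD n 1) (some k))

/-- the generator `q` of the semidirect product -/
def qE : EE n := SemidirectProduct.inr (gen (cmD n 1) none)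

/-- the embedding of `Np` -/
def iN : Np (St n) →* EE n := SemidirectProduct.inl

theorem iN_inj : Function.Injective (iN : Np (St n) →* EE n) := SemidirectProduct.inl_injective

theorem bE_iN (k : Fin (n + 3)) (x : Np (St n)) : bE k * iN x = iN (bN k x) * bE k := by
  have h1 := SemidirectProduct.inl_aut (φ := aD n) (gen (cmD n 1) (some k)) x
  have h2 : aD n (gen (cmD n 1) (some k)) = bN k := liftD_b _ _
  rw [h2, map_inv, eq_mul_inv_iff_mul_eq] at h1
  exact h1.symm

theorem qE_iN (x : Np (St n)) : qE * iN x = iN (tb 0 (bN 0 (tb 0 x))) * qE := by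
  have h1 := SemidirectProduct.inl_aut (φ := aD n) (gen (cmD n 1) none) x
  have h2 : aD n (gen (cmD n 1) none) = tt 0 * bN 0 * tt 0 := liftD_q _
  rw [h2, map_inv, eq_mul_inv_iff_mul_eq] at h1
  exact h1.symm

/-- the involution -/
def rE : EE n := iN (U (Fin.last (n + 3)))

theorem rE_mul : rE * rE = (1 : EE n) := by
  rw [rE, ← map_mul, U_mul_U, map_one]

theorem drel_E : DRel 1 (bE : Fin (n + 3) → EE n) qE := (drel_gen n 1).map SemidirectProduct.inr

theorem rE_bE {k : Fin (n + 3)} (hk : k ≠ Fin.last (n + 2)) : rE * bE k = bE k * (rE : EE n) := by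
  rw [rE, bE_iN, bN_U_last hk]

theorem rE_last : bE (Fin.last (n + 2)) * rE * bE (Fin.last (n + 2)) * rE =
    rE * bE (Fin.last (n + 2)) * (rE : EE n) * bE (Fin.last (n + 2)) := by
  have h1 : (Fin.last (n + 2)).succ = (Fin.last (n + 3) : St n) := rfl
  have hne : (Fin.last (n + 2)).castSucc ≠ (Fin.last (n + 3) : St n) := by
    intro h
    have h2 := congrArg Fin.val h
    simp only [Fin.val_last, Fin.val_castSucc] at h2
    omega
  have e1 : bE (Fin.last (n + 2)) * rE = iN (U (Fin.last (n + 2)).castSucc) * (bE (Fin.last (n + 2)) : EE n) := by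
    rw [rE, bE_iN, bN_U, h1, bsG_right _ hne]
  have e2 : bE (Fin.last (n + 2)) * iN (U (Fin.last (n + 2)).castSucc) =
      iN (U (Fin.last (n + 2)).castSucc) * rE * iN (U (Fin.last (n + 2)).castSucc) *
        (bE (Fin.last (n + 2)) : EE n) := by
    rw [bE_iN, bN_U, h1, bsG_left, map_mul, map_mul]
    rfl
  have e3 : iN (U (Fin.last (n + 2)).castSucc) * iN (U (Fin.last (n + 2)).castSucc) = (1 : EE n) := by
    rw [← map_mul, U_mul_U, map_one]
  generalize iN (U (Fin.last (n + 2)).castSucc) = V at *
  generalize (rE : EE n) = R at *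
  generalize (bE (Fin.last (n + 2)) : EE n) = B at *
  have e4 : B * R * B * R = R * V * B * B := by
    calc B * R * B * R = (B * R) * (B * R) := by group
      _ = V * (B * V) * B := by
        rw [e1]
        group
      _ = (V * V) * R * V * B * B := by
        rw [e2]
        group
      _ = _ := by
        rw [e3]
        group
  rw [e4]
  calc R * V * B * B = R * (V * B) * B := by group
    _ = _ := by
      rw [← e1]
      group

theorem qE_rE : qE * rE = rE * (qE : EE n) := by
  have h1 : (0 : St n) < Fin.last (n + 3) := by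
    rw [Fin.lt_def]
    simp
  have h2 : (0 : Fin (n + 3)) ≠ Fin.last (n + 2) := by
    intro h
    have h3 := congrArg Fin.val h
    simp at h3
  rw [rE, qE_iN, tb_U_lt h1, bN_U_last h2, tb_U_lt h1]

theorem trel_E : TRel (bE : Fin (n + 3) → EE n) qE (rE * bE (Fin.last (n + 2)) * rE) where
  d := drel_E
  d' := drel_E.toBRel.twin_last rE_mul (fun _ hk => rE_bE hk) rE_last
  qq := by
    have h1 := (drel_E (n := n)).qco (Fin.last (n + 2)) (by rw [Fin.val_last]; omega)
    have h2 := qE_rE (n := n)
    have c1 : Commute (qE : EE n) (bE (Fin.last (n + 2))) := h1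
    have c2 : Commute (qE : EE n) rE := h2
    exact ((c2.mul_right c1).mul_right c2).eq

variable (n) in
/-- the embedding -/
def phE : Art (cmT n) →* EE n := liftT trel_E

@[simp]
theorem phE_b (k : Fin (n + 3)) : phE n (gen _ (some (some k))) = bE k := liftT_b _ _

@[simp]
theorem phE_q : phE n (gen _ (some none)) = qE := liftT_q _

@[simp]
theorem phE_q' : phE n (gen _ none) = rE * bE (Fin.last (n + 2)) * rE := liftT_q' _

end Pool.Agent.H98.DT
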