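import Pool.Agent.H98.DT.Si

/-!
# The two folds

`f1` and `f2` are the homomorphisms from the Artin group of affine type `D` to the Artin groups of type `D` which identify the two
leaves at the last and at the first end. If both are trivial at `g` then `phE n g` is in the image of the quotient `Mq` of the free
group.
-/

set_option autoImplicit false

namespace Pool.Agent.H98.DT

open Pool.Agent.H52.PAG

section Gen

variable {I : Type} [LinearOrder I]

variable (I) in
/-- the embedding of the quotient of the free group -/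
def jM : Mq I →* Np I := QuotientGroup.map (KK I) (NK I) iF fun x hx => ⟨x, hx, rfl⟩

theorem jM_mk (x : FL I) : jM I (QuotientGroup.mk' (KK I) x) = mk (iF x) := rfl

theorem jM_inj : Function.Injective (jM I) := by
  rw [injective_iff_map_eq_one]
  intro x hx
  obtain ⟨x, rfl⟩ := QuotientGroup.mk'_surjective _ x
  rw [jM_mk, mk_iF_eq_one] at hx
  exact (QuotientGroup.eq_one_iff x).2 hx

variable (I) in
/-- the projection to the free product -/
def rho : Np I →* Ga I := QuotientGroup.lift (NK I) SemidirectProduct.rightHom (by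
  rintro _ ⟨x, _, rfl⟩
  exact SemidirectProduct.rightHom_inl _)

theorem rho_mk (x : Phi I) : rho I (mk x) = x.right := rfl

theorem rho_tb (i : I) (x : Np I) : rho I (tb i x) = rho I x := by
  obtain ⟨x, rfl⟩ := mk_surj x
  rw [tb_mk, rho_mk, rho_mk, th_right]

theorem exists_jM {x : Np I} (h : rho I x = 1) : ∃ y, jM I y = x := by
  obtain ⟨x, rfl⟩ := mk_surj x
  rw [rho_mk] at h
  refine ⟨QuotientGroup.mk' (KK I) x.left, ?_⟩
  rw [jM_mk]
  congr 1
  rw [phi_eq x, h, map_one, mul_one]
  simp [iF]

theorem bet_right (i j : I) (x : Phi I) : (bet i j x).right = bG i j x.right := by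
  have h1 : SemidirectProduct.rightHom.comp (bet i j) = (bG i j).comp (SemidirectProduct.rightHom : Phi I →* Ga I) := by
    refine phi_ext ?_ fun l => ?_
    · rw [MonoidHom.comp_apply, MonoidHom.comp_apply, bet_pa]
      have ha : SemidirectProduct.rightHom (pa : Phi I) = 1 := SemidirectProduct.rightHom_inl _
      rw [ha, map_one]
    · rw [MonoidHom.comp_apply, MonoidHom.comp_apply, pu, bet_iG]
      have h2 : ∀ g : Ga I, SemidirectProduct.rightHom (iG g : Phi I) = g := fun g => SemidirectProduct.rightHom_inr _
      rw [h2, h2]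
  exact DFunLike.congr_fun h1 x

end Gen

variable {n : ℕ}

/-- the automorphisms of the free product -/
def bGE (k : Fin (n + 3)) : MulAut (Ga (St n)) :=
  MonoidHom.toMulEquiv (bG k.castSucc k.succ) (bG k.succ k.castSucc)
    (MonoidHom.ext fun x => bG_bG (by
      intro h
      have h1 := congrArg Fin.val h
      simp at h1) x)
    (MonoidHom.ext fun x => bG_bG (by
      intro h
      have h1 := congrArg Fin.val h
      simp at h1) x)

theorem bGE_apply (k : Fin (n + 3)) (x : Ga (St n)) : bGE k x = bG k.castSucc k.succ x := rfl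

theorem rho_bN (k : Fin (n + 3)) (x : Np (St n)) : rho _ (bN k x) = bGE k (rho _ x) := by
  obtain ⟨x, rfl⟩ := mk_surj x
  rw [bN_mk, rho_mk, rho_mk, bGE_apply, bet_right]

theorem rho_surj (x : Ga (St n)) : ∃ y, rho (St n) y = x := ⟨mk (iG x), rfl⟩

theorem brel_G : BRel (bGE : Fin (n + 3) → MulAut (Ga (St n))) where
  br k l h := by
    refine MulEquiv.ext fun x => ?_
    obtain ⟨x, rfl⟩ := rho_surj x
    have h1 := DFunLike.congr_fun ((brel_N (n := n)).br k l h) x
    have h2 := congrArg (rho (St n)) h1
    simp only [MulAut.mul_apply, rho_bN] at h2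
    exact h2
  co k l h := by
    refine MulEquiv.ext fun x => ?_
    obtain ⟨x, rfl⟩ := rho_surj x
    have h1 := DFunLike.congr_fun ((brel_N (n := n)).co k l h) x
    have h2 := congrArg (rho (St n)) h1
    simp only [MulAut.mul_apply, rho_bN] at h2
    exact h2

variable (n) in
/-- the action on the free product -/
def aG : Art (cmD n 1) →* MulAut (Ga (St n)) := liftD brel_G.fold

theorem aG_b (k : Fin (n + 3)) : aG n (gen _ (some k)) = bGE k := liftD_b _ _

theorem aG_q : aG n (gen _ none) = bGE 0 := liftD_q _

theorem aD_b (k : Fin (n + 3)) : aD n (gen _ (some k)) = bN k := liftD_b _ _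

theorem aD_q : aD n (gen _ none) = tt 0 * bN 0 * tt 0 := liftD_q _

theorem rho_aD (g : Art (cmD n 1)) (x : Np (St n)) : rho _ (aD n g x) = aG n g (rho _ x) := by
  have hgen : ∀ (y : Option (Fin (n + 3))) (x : Np (St n)),
      rho _ (aD n (gen _ y) x) = aG n (gen _ y) (rho _ x) := by
    intro y x
    rcases y with _ | k
    · rw [aD_q, aG_q]
      change rho _ (tb 0 (bN 0 (tb 0 x))) = _
      rw [rho_tb, rho_bN, rho_tb]
    · rw [aD_b, aG_b, rho_bN]
  induction g using art_induction generalizing x with
  | h1 => simp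
  | h2 g i ih => rw [map_mul, MulAut.mul_apply, ih, hgen, map_mul, MulAut.mul_apply]
  | h3 g i ih =>
    have h4 := hgen i ((aD n (gen _ i))⁻¹ x)
    rw [← MulAut.mul_apply, mul_inv_cancel, MulAut.one_apply] at h4
    rw [map_mul, MulAut.mul_apply, ih, map_inv, map_mul, map_inv, MulAut.mul_apply, h4, MulAut.inv_apply_self]

variable (n) in
/-- the action on the set `Ga` -/
def om : EE n →* Equiv.Perm (Ga (St n)) :=
  SemidirectProduct.lift ((MulAction.toPermHom (Ga (St n)) (Ga (St n))).comp (rho (St n)))
    ((MulAut.toPerm (Ga (St n))).comp (aG n)) fun g => MonoidHom.ext fun x => by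
      ext y
      change rho (St n) (aD n g x) * y = aG n g (rho (St n) x * (aG n g)⁻¹ y)
      rw [map_mul, MulAut.apply_inv_self, rho_aD]

theorem om_iN (x : Np (St n)) : om n (iN x) = MulAction.toPermHom (Ga (St n)) (Ga (St n)) (rho _ x) :=
  SemidirectProduct.lift_inl _ _ _ _

theorem om_inr (g : Art (cmD n 1)) : om n (SemidirectProduct.inr g) = MulAut.toPerm (Ga (St n)) (aG n g) :=
  SemidirectProduct.lift_inr _ _ _ _

variable (n) in
/-- the first fold -/
def f1 : Art (cmT n) →* Art (cmD n 1) := SemidirectProduct.rightHom.comp (phE n)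

variable (n) in
/-- the second fold -/
def f2 : Art (cmT n) →* Art (cmD n (n + 1)) :=
  liftT (b := fun k => gen (cmD n (n + 1)) (some k)) (q := gen (cmD n (n + 1)) (some 0))
    (q' := gen (cmD n (n + 1)) none)
    { d := (drel_gen n (n + 1)).toBRel.fold
      d' := drel_gen n (n + 1)
      qq := ((drel_gen n (n + 1)).qco 0 (by
        have h : (0 : Fin (n + 3)).val = 0 := rfl
        omega)).symm }

variable (n) in
/-- the inclusion of the second group of type `D` -/
def inc' : Art (cmD n (n + 1)) →* Art (cmT n) := liftD (trel_gen n).d'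

theorem fold_eq (g : Art (cmT n)) : om n (phE n (inc' n (f2 n g))) = om n (phE n g) := by
  have h1 : (om n).comp ((phE n).comp ((inc' n).comp (f2 n))) = (om n).comp (phE n) := by
    refine t_ext (fun k => ?_) ?_ ?_
    · change om n (phE n (inc' n (f2 n (gen _ (some (some k)))))) = om n (phE n (gen _ (some (some k))))
      rw [f2, liftT_b, inc', liftD_b]
    · change om n (phE n (inc' n (f2 n (gen _ (some none))))) = om n (phE n (gen _ (some none)))
      rw [f2, liftT_q, inc', liftD_b, phE_b, phE_q, bE, qE, om_inr, om_inr, aG_b, aG_q]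
    · change om n (phE n (inc' n (f2 n (gen _ none)))) = om n (phE n (gen _ none))
      rw [f2, liftT_q', inc', liftD_q]
  exact DFunLike.congr_fun h1 g

theorem exists_of_folds {g : Art (cmT n)} (h1 : f1 n g = 1) (h2 : f2 n g = 1) :
    ∃ y : Mq (St n), iN (jM _ y) = phE n g := by
  have h3 := fold_eq g
  rw [h2, map_one, map_one, map_one] at h3
  have h4 : phE n g = iN (phE n g).left := by
    have h5 : (phE n g).right = 1 := h1
    have h6 := SemidirectProduct.inl_left_mul_inr_right (phE n g)
    rw [h5, map_one, mul_one] at h6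
    exact h6.symm
  rw [h4, om_iN] at h3
  have h5 : rho _ (phE n g).left = 1 := by
    have h6 := DFunLike.congr_fun h3 1
    change (1 : Ga (St n)) = rho _ (phE n g).left * 1 at h6
    rw [mul_one] at h6
    exact h6.symm
  obtain ⟨y, hy⟩ := exists_jM h5
  exact ⟨y, by rw [hy, ← h4]⟩

end Pool.Agent.H98.DT
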