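import Pool.Agent.H98.FJ.P.Ext0

/-!
# The free product of groups of order two

`Ga I` is the free product of groups of order two with the generators `s i`, `i` in `I`.
-/

set_option autoImplicit false

namespace Pool.Agent.H98.DT

/-- the group of order two -/
abbrev C2 : Type := Multiplicative (ZMod 2)

/-- the free product of groups of order two -/
abbrev Ga (I : Type) : Type := Monoid.CoprodI (fun _ : I => C2)

variable {I : Type}

/-- the nontrivial element of the group of order two -/
def t2 : C2 := Multiplicative.ofAdd 1

theorem t2_mul : t2 * t2 = 1 := by decide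

theorem c2_cases (x : C2) : x = 1 ∨ x = t2 := by
  revert x
  decide

/-- homomorphisms from the group of order two -/
def liftC {H : Type*} [Group H] (x : H) (hx : x * x = 1) : C2 →* H where
  toFun y := if y = 1 then 1 else x
  map_one' := if_pos rfl
  map_mul' y z := by
    have h1 : t2 ≠ 1 := by decide
    rcases c2_cases y with rfl | rfl <;> rcases c2_cases z with rfl | rfl
    · simp
    · simp [h1]
    · simp [h1]
    · rw [t2_mul]
      simp [h1, hx]

theorem liftC_t2 {H : Type*} [Group H] (x : H) (hx : x * x = 1) : liftC x hx t2 = x := by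
  have h1 : t2 ≠ 1 := by decide
  change (if t2 = 1 then (1 : H) else x) = x
  exact if_neg h1

/-- the generators -/
def s (i : I) : Ga I := Monoid.CoprodI.of (i := i) t2

theorem s_mul_s (i : I) : s i * s i = 1 := by
  rw [s, ← map_mul, t2_mul, map_one]

theorem s_inv (i : I) : (s i)⁻¹ = s i := inv_eq_of_mul_eq_one_left (s_mul_s i)

/-- homomorphisms from the free product of groups of order two -/
def liftG {H : Type*} [Group H] (f : I → H) (hf : ∀ i, f i * f i = 1) : Ga I →* H :=
  Monoid.CoprodI.lift fun i => liftC (f i) (hf i)

@[simp]
theorem liftG_s {H : Type*} [Group H] (f : I → H) (hf : ∀ i, f i * f i = 1) (i : I) :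
    liftG f hf (s i) = f i := by
  rw [liftG, s, Monoid.CoprodI.lift_of, liftC_t2]

theorem ga_ext {H : Type*} [Monoid H] {f g : Ga I →* H} (h : ∀ i, f (s i) = g (s i)) : f = g := by
  refine Monoid.CoprodI.ext_hom _ _ fun i => MonoidHom.ext fun x => ?_
  have h1 := h i
  rcases c2_cases x with rfl | rfl
  · simp
  · exact h1

/-- the group element of a word -/
def W (l : List I) : Ga I := (l.map s).prod

@[simp]
theorem W_nil : W ([] : List I) = 1 := rfl

@[simp]
theorem W_cons (i : I) (l : List I) : W (i :: l) = s i * W l := by
  simp [W]

theorem W_append (l m : List I) : W (l ++ m) = W l * W m := by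
  simp [W]

theorem W_reverse (l : List I) : W l.reverse = (W l)⁻¹ := by
  induction l with
  | nil => simp
  | cons i l ih => rw [List.reverse_cons, W_append, ih, W_cons, W_cons, W_nil, mul_inv_rev, s_inv, mul_one]

section Red

variable [DecidableEq I]

/-- the action of a generator on the reduced words -/
def push (i : I) : List I → List I
  | [] => [i]
  | j :: l => if i = j then l else i :: j :: l

theorem push_chain (i : I) {l : List I} (hl : l.IsChain (· ≠ ·)) : (push i l).IsChain (· ≠ ·) := by
  cases l with
  | nil => simp [push]
  | cons j l =>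
    rw [push]
    split_ifs with h
    · exact hl.tail
    · exact List.isChain_cons_cons.2 ⟨h, hl⟩

theorem push_push (i : I) {l : List I} (hl : l.IsChain (· ≠ ·)) : push i (push i l) = l := by
  cases l with
  | nil => simp [push]
  | cons j l =>
    by_cases h : i = j
    · subst h
      cases l with
      | nil => simp [push]
      | cons k l =>
        have h1 : i ≠ k := (List.isChain_cons_cons.1 hl).1
        simp [push, h1]
    · simp [push, h]

theorem push_of_chain {i : I} {l : List I} (hl : (i :: l).IsChain (· ≠ ·)) : push i l = i :: l := by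
  cases l with
  | nil => rfl
  | cons j l => rw [push, if_neg (List.isChain_cons_cons.1 hl).1]

theorem W_push (i : I) (l : List I) : W (push i l) = s i * W l := by
  cases l with
  | nil => rfl
  | cons j l =>
    rw [push]
    split_ifs with h
    · rw [W_cons, h, ← mul_assoc, s_mul_s, one_mul]
    · rfl

/-- reduced words -/
def RW (I : Type) : Type := {l : List I // l.IsChain (· ≠ ·)}

/-- the permutation of the reduced words by a generator -/
def pushE (i : I) : Equiv.Perm (RW I) where
  toFun l := ⟨push i l.1, push_chain i l.2⟩
  invFun l := ⟨push i l.1, push_chain i l.2⟩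
  left_inv l := Subtype.ext (push_push i l.2)
  right_inv l := Subtype.ext (push_push i l.2)

/-- the action on the reduced words -/
def actR : Ga I →* Equiv.Perm (RW I) :=
  liftG pushE fun i => by
    ext l : 1
    exact Subtype.ext (push_push i l.2)

/-- the reduced word of an element -/
def rw (g : Ga I) : List I := (actR g ⟨[], List.isChain_nil⟩).1

theorem rw_chain (g : Ga I) : (rw g).IsChain (· ≠ ·) := (actR g ⟨[], List.isChain_nil⟩).2

@[simp]
theorem rw_one : rw (1 : Ga I) = [] := by simp [rw]

theorem rw_s_mul (i : I) (g : Ga I) : rw (s i * g) = push i (rw g) := by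
  rw [rw, map_mul, actR, liftG_s]
  rfl

theorem rw_W {l : List I} (hl : l.IsChain (· ≠ ·)) : rw (W l) = l := by
  induction l with
  | nil => simp
  | cons i l ih => rw [W_cons, rw_s_mul, ih hl.tail, push_of_chain hl]

theorem exists_W (g : Ga I) : ∃ l : List I, l.IsChain (· ≠ ·) ∧ W l = g := by
  induction g using Monoid.CoprodI.induction_left with
  | one => exact ⟨[], List.isChain_nil, rfl⟩
  | @mul i m x ih =>
    obtain ⟨l, hl, rfl⟩ := ih
    rcases c2_cases m with rfl | rfl
    · exact ⟨l, hl, by simp⟩
    · exact ⟨push i l, push_chain i hl, W_push i l⟩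

@[simp]
theorem W_rw (g : Ga I) : W (rw g) = g := by
  obtain ⟨l, hl, rfl⟩ := exists_W g
  rw [rw_W hl]

/-- reduced words are determined by the element -/
theorem W_inj {l m : List I} (hl : l.IsChain (· ≠ ·)) (hm : m.IsChain (· ≠ ·)) (h : W l = W m) : l = m := by
  rw [← rw_W hl, ← rw_W hm, h]

/-- the word length -/
def len (g : Ga I) : ℕ := (rw g).length

@[simp]
theorem len_one : len (1 : Ga I) = 0 := by simp [len]

theorem len_W {l : List I} (hl : l.IsChain (· ≠ ·)) : len (W l) = l.length := by
  rw [len, rw_W hl]

theorem push_length_le (i : I) (l : List I) : (push i l).length ≤ l.length + 1 := by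
  cases l with
  | nil => simp [push]
  | cons j l =>
    rw [push]
    split_ifs
    · simp
      omega
    · simp

theorem len_s_mul_le (i : I) (g : Ga I) : len (s i * g) ≤ len g + 1 := by
  rw [len, rw_s_mul]
  exact push_length_le i _

theorem len_W_le (l : List I) : len (W l) ≤ l.length := by
  induction l with
  | nil => simp
  | cons i l ih =>
    rw [W_cons, List.length_cons]
    exact (len_s_mul_le i _).trans (Nat.add_le_add_right ih 1)

theorem len_mul_le (g h : Ga I) : len (g * h) ≤ len g + len h := by
  have h1 := len_W_le (rw g ++ rw h)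
  rwa [W_append, W_rw, W_rw, List.length_append] at h1

theorem len_inv_le (g : Ga I) : len g⁻¹ ≤ len g := by
  have h1 := len_W_le (rw g).reverse
  rwa [W_reverse, W_rw, List.length_reverse] at h1

theorem len_inv (g : Ga I) : len g⁻¹ = len g := by
  refine le_antisymm (len_inv_le g) ?_
  have h1 := len_inv_le g⁻¹
  rwa [inv_inv] at h1

theorem len_s (i : I) : len (s i) = 1 := by
  have h1 := len_W (l := [i]) (by simp)
  simpa using h1

/-- induction along reduced words, letters added on the left -/
theorem ga_induction {P : Ga I → Prop} (h1 : P 1)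
    (h2 : ∀ (i : I) (l : List I), (i :: l).IsChain (· ≠ ·) → P (W l) → P (s i * W l)) (g : Ga I) : P g := by
  obtain ⟨l, hl, rfl⟩ := exists_W g
  induction l with
  | nil => exact h1
  | cons i l ih =>
    rw [W_cons]
    exact h2 i l hl (ih hl.tail)

end Red

/-- the parity of the length -/
def par : Ga I →* ℤˣ := liftG (fun _ => -1) fun _ => by simp

@[simp]
theorem par_s (i : I) : par (s i) = -1 := by rw [par, liftG_s]

theorem par_W (l : List I) : par (W l) = (-1) ^ l.length := by
  induction l with
  | nil => simp
  | cons i l ih => rw [W_cons, map_mul, par_s, ih, List.length_cons, pow_succ']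

end Pool.Agent.H98.DT
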