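import Pool.Agent.H98.DT.Defs

/-!
# The quotient group `Np` and the involutions `tb`

`Np I` is the quotient of `Phi I` by the relations `KK I`, `X g` is the class of the letter `g` and `U l` the class of `pu l`;
`tb i` is the automorphism of `Np I` which is induced by `th i`. It is an involution.
-/

set_option autoImplicit false

namespace Pool.Agent.H98.DT

variable {I : Type} [LinearOrder I]

variable (I) in
/-- the relations as a subgroup of `Phi I` -/
def NK : Subgroup (Phi I) := (KK I).map iF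

instance NK_normal : (NK I).Normal := by
  refine ⟨?_⟩
  rintro _ ⟨x, hx, rfl⟩ y
  rw [phi_eq y]
  refine ⟨y.left * act y.right x * y.left⁻¹, ?_, ?_⟩
  · exact (inferInstance : (KK I).Normal).conj_mem _ (act_mem _ hx) _
  · rw [map_mul, map_mul, map_inv, iF_act]
    group

variable (I) in
/-- the quotient -/
abbrev Np : Type := Phi I ⧸ NK I

/-- the quotient map -/
def mk : Phi I →* Np I := QuotientGroup.mk' (NK I)

theorem mk_surj : Function.Surjective (mk : Phi I →* Np I) := QuotientGroup.mk'_surjective _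

theorem mk_eq_one {x : Phi I} : mk x = 1 ↔ x ∈ NK I := QuotientGroup.eq_one_iff x

theorem mk_iF_eq_one {x : FL I} : mk (iF x) = 1 ↔ x ∈ KK I := by
  rw [mk_eq_one, NK]
  exact Subgroup.mem_map_iff_mem iF_inj

/-- the classes of the letters -/
def X (g : Ga I) : Np I := mk (iF (lt g))

/-- the classes of the generators `u l` -/
def U (l : I) : Np I := mk (pu l)

theorem mk_pa : mk (pa : Phi I) = X 1 := rfl

theorem mk_pu (l : I) : mk (pu l) = U l := rfl

theorem U_mul_U (l : I) : U l * U l = 1 := by rw [U, ← map_mul, pu_mul_pu, map_one]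

theorem U_inv (l : I) : (U l)⁻¹ = U l := inv_eq_of_mul_eq_one_left (U_mul_U l)

theorem G_X (v g : Ga I) : mk (iG v) * X g = X (v * g) * mk (iG v) := by
  rw [X, X, ← act_lt, iF_act]
  simp only [map_mul, map_inv, inv_mul_cancel_right]

theorem U_X (l : I) (g : Ga I) : U l * X g = X (s l * g) * U l := G_X _ _

theorem mk_pw (i : I) : mk (pw i) = X (s i) * (X 1)⁻¹ := by
  rw [pw_eq, map_mul, map_inv, map_mul, map_inv]
  rfl

theorem np_ext {H : Type*} [Group H] {f g : Np I →* H} (h1 : f (X 1) = g (X 1)) (h2 : ∀ l, f (U l) = g (U l)) :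
    f = g := by
  have h3 : f.comp mk = g.comp mk := phi_ext h1 h2
  ext x
  exact DFunLike.congr_fun h3 x

/-- the endomorphism induced by `th i` -/
def tb (i : I) : Np I →* Np I := QuotientGroup.map (NK I) (NK I) (th i) (by
  rintro _ ⟨x, hx, rfl⟩
  exact ⟨thF i x, thF_mem i hx, (th_iF i x).symm⟩)

theorem tb_mk (i : I) (x : Phi I) : tb i (mk x) = mk (th i x) := rfl

theorem tb_X (i : I) (g : Ga I) :
    tb i (X g) = mk (iF (mu i g)) * X (g * s i) * (mk (iF (mu i g)))⁻¹ := by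
  rw [X, tb_mk, th_iF, thF_lt]
  simp only [map_mul, map_inv]
  rfl

theorem tb_X1 (i : I) : tb i (X 1) = X (s i) := by
  rw [tb_X, mu_one, one_mul]
  simp

theorem tb_U_self (i : I) : tb i (U i) = X (s i) * (X 1)⁻¹ * U i := by
  rw [U, tb_mk, th_pu_self, map_mul, mk_pw]

theorem tb_U_lt {i j : I} (h : i < j) : tb i (U j) = U j := by
  rw [U, tb_mk, th_pu_lt h]

theorem tb_U_gt {i j : I} (h : j < i) :
    tb i (U j) = X (s i) * (X 1)⁻¹ * U j * (X (s i) * (X 1)⁻¹)⁻¹ := by
  rw [U, tb_mk, th_pu_gt h, map_mul, map_mul, map_inv, mk_pw]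

theorem cX (l : I) : Commute (X 1) (X (s l) : Np I) := by
  have h1 : mk (iF (rel 1 [] l)) = (1 : Np I) := mk_iF_eq_one.2 (rel_mem _ _ _)
  rw [rel, act_one, thW_nil, map_cm, map_cm, cm] at h1
  have h2 : X 1 * X (s l) * (X 1)⁻¹ * (X (s l))⁻¹ = (1 : Np I) := h1
  rw [mul_inv_eq_one, mul_inv_eq_iff_eq_mul] at h2
  exact h2

theorem cAct (v : Ga I) {g h : Ga I} (hc : Commute (X g) (X h : Np I)) : Commute (X (v * g)) (X (v * h) : Np I) := by
  have h1 : ∀ k : Ga I, X (v * k) = mk (iG v) * X k * (mk (iG v))⁻¹ := fun k => by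
    rw [G_X, mul_inv_cancel_right]
  rw [h1, h1]
  have h2 := hc.map (MulAut.conj (mk (iG v : Phi I))).toMonoidHom
  simpa using h2

theorem conj_eq_of_commute {G : Type*} [Group G] {x y : G} (h : Commute x y) : x * y * x⁻¹ = y := by
  rw [h.eq, mul_inv_cancel_right]

theorem tb_X_self (i : I) : tb i (X (s i)) = X 1 := by
  rw [tb_X, mu_s_self, s_mul_s, map_mul, map_inv, map_mul, map_inv]
  change X (s i) * (X 1)⁻¹ * X 1 * (X (s i) * (X 1)⁻¹)⁻¹ = X 1
  rw [inv_mul_cancel_right, mul_inv_rev, inv_inv, ← mul_assoc]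
  exact conj_eq_of_commute (cX i).symm

/-- the classes of the letters `s i * s j` -/
theorem cSelf (i j : I) : Commute (X (s i)) (X (s i * s j) : Np I) := by
  have h1 := cAct (s i) (cX j)
  rwa [mul_one] at h1

variable {i j : I}

theorem tb_i_Xj (h : i < j) : tb i (X (s j)) = X (s j * s i) := by
  rw [tb_X, mu_s_lt h]
  simp

theorem tb_i_Xij (h : i < j) :
    tb i (X (s i * s j)) = X (s i) * (X 1)⁻¹ * X (s i * s j * s i) * (X (s i) * (X 1)⁻¹)⁻¹ := by
  rw [tb_X, mu_mul, mu_s_lt h, map_one, mul_one, mu_s_self, map_mul, map_inv, map_mul, map_inv]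
  rfl

theorem tb_j_Xi' (h : i < j) :
    tb j (X (s i)) = X (s j) * ((X 1)⁻¹ * X (s i * s j) * X 1) * (X (s j))⁻¹ := by
  rw [tb_X, mu_s_gt h]
  have h1 := conj_eq_of_commute (cSelf i j)
  simp only [map_mul, map_inv]
  change X (s j) * (X 1)⁻¹ * X (s i) * (X (s i * s j))⁻¹ * X (s i * s j) *
    (X (s j) * (X 1)⁻¹ * X (s i) * (X (s i * s j))⁻¹)⁻¹ = _
  have h2 : X (s j) * (X 1)⁻¹ * X (s i) * (X (s i * s j))⁻¹ * X (s i * s j) *
    (X (s j) * (X 1)⁻¹ * X (s i) * (X (s i * s j))⁻¹)⁻¹ =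
    X (s j) * ((X 1)⁻¹ * (X (s i) * X (s i * s j) * (X (s i))⁻¹) * X 1) * (X (s j))⁻¹ := by group
  rw [h2, h1]

theorem cAny_lt (h : i < j) : Commute (X (s i)) (X (s j * s i) : Np I) := by
  have h1 := (cX j).map (tb i)
  rwa [tb_X1, tb_i_Xj h] at h1

theorem cAny_gt (h : i < j) : Commute (X (s j)) (X (s i * s j) : Np I) := by
  have h1 := (cX i).map (tb j)
  rw [tb_X1, tb_j_Xi' h] at h1
  have h2 := h1.map (MulAut.conj (X 1 * (X (s j))⁻¹)).toMonoidHom
  have h3 : (MulAut.conj (X 1 * (X (s j))⁻¹)).toMonoidHom (X (s j) : Np I) = X (s j) := by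
    simp only [MulEquiv.toMonoidHom_eq_coe, MonoidHom.coe_coe, MulAut.conj_apply]
    exact conj_eq_of_commute ((cX j).mul_left (Commute.refl (X (s j))).inv_left)
  have h4 : (MulAut.conj (X 1 * (X (s j))⁻¹)).toMonoidHom
      (X (s j) * ((X 1)⁻¹ * X (s i * s j) * X 1) * (X (s j))⁻¹ : Np I) = X (s i * s j) := by
    simp only [MulEquiv.toMonoidHom_eq_coe, MonoidHom.coe_coe, MulAut.conj_apply]
    group
  rwa [h3, h4] at h2

theorem tb_j_Xi (h : i < j) : tb j (X (s i)) = (X 1)⁻¹ * X (s i * s j) * X 1 := by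
  rw [tb_j_Xi' h]
  exact conj_eq_of_commute (((cX j).symm.inv_right.mul_right (cAny_gt h)).mul_right (cX j).symm)

/-- the letters `1` and `s i * s j * s i` -/
theorem cIJI_lt (h : i < j) : Commute (X 1) (X (s i * s j * s i) : Np I) := by
  have h1 := cAct (s i) (cAny_lt h)
  rwa [s_mul_s, ← mul_assoc] at h1

theorem cIJI_gt (h : i < j) : Commute (X 1) (X (s j * s i * s j) : Np I) := by
  have h1 := cAct (s j) (cAny_gt h)
  rwa [s_mul_s, ← mul_assoc] at h1

theorem tb_j_Xji (h : i < j) : tb j (X (s j * s i)) = X (s j * s i * s j) := by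
  rw [tb_X, mu_mul, mu_s_self, mu_s_gt h]
  have h1 : Commute (X (s j * s i)) (X (s j * s i * s j) : Np I) := by
    have h2 := cAct (s j * s i) (cX j)
    rwa [mul_one] at h2
  simp only [map_mul, map_inv, act_lt]
  rw [s_mul_s, mul_one, ← mul_assoc]
  change X (s j) * (X 1)⁻¹ * (X 1 * (X (s j))⁻¹ * X (s j * s i) * (X (s j * s i * s j))⁻¹) * X (s j * s i * s j) *
    (X (s j) * (X 1)⁻¹ * (X 1 * (X (s j))⁻¹ * X (s j * s i) * (X (s j * s i * s j))⁻¹))⁻¹ = _
  have h2 : X (s j) * (X 1)⁻¹ * (X 1 * (X (s j))⁻¹ * X (s j * s i) * (X (s j * s i * s j))⁻¹) * X (s j * s i * s j) *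
    (X (s j) * (X 1)⁻¹ * (X 1 * (X (s j))⁻¹ * X (s j * s i) * (X (s j * s i * s j))⁻¹))⁻¹ =
    X (s j * s i) * X (s j * s i * s j) * (X (s j * s i))⁻¹ := by group
  rw [h2]
  exact conj_eq_of_commute h1

theorem tb_tb (i : I) (x : Np I) : tb i (tb i x) = x := by
  have hw : tb i (X (s i) * (X 1)⁻¹) = (X (s i) * (X 1)⁻¹)⁻¹ := by
    rw [map_mul, map_inv, tb_X1, tb_X_self, mul_inv_rev, inv_inv]
  have h1 : (tb i).comp (tb i) = MonoidHom.id (Np I) := by
    refine np_ext ?_ fun l => ?_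
    · change tb i (tb i (X 1)) = X 1
      rw [tb_X1, tb_X_self]
    · change tb i (tb i (U l)) = U l
      rcases lt_trichotomy i l with h | rfl | h
      · rw [tb_U_lt h, tb_U_lt h]
      · rw [tb_U_self, map_mul, hw, tb_U_self]
        group
      · rw [tb_U_gt h, map_mul, map_mul, map_inv, hw, tb_U_gt h]
        group
  exact DFunLike.congr_fun h1 x

end Pool.Agent.H98.DT
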