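import Pool.Agent.H98.DT.Rs
import Pool.Agent.H98.DT.Bt

/-!
# The homomorphism from `Np` to a group with two involutions at the ends of the path

`PS m b s r`: the `b k`, `k < m`, satisfy the braid relations, `s` and `r` are commuting involutions, `s` commutes with the `b k`
for `k ≠ 0`, `r` commutes with the `b k` for `k ≠ m - 1`, and `s, b 0` and `r, b (m - 1)` satisfy the braid relation of length
four. Then there is a homomorphism `psN` from `Np (Fin (m + 1))` which maps `U l` to `uf l`, with `uf m = r`,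
`uf k = b k * uf (k + 1) * (b k)⁻¹`, and is equivariant: `tt i` corresponds to the conjugation by `tf s b i`, and `bb` to the
conjugation by `b k`.
-/

set_option autoImplicit false

namespace Pool.Agent.H98.DT

variable {G : Type*} [Group G]

/-- two involutions at the ends of the path -/
structure PS (m : ℕ) (b : ℕ → G) (s r : G) : Prop where
  bs : BS m b
  hm : 2 ≤ m
  ss : s * s = 1
  rr : r * r = 1
  sr : s * r = r * s
  sb : ∀ k, 0 < k → k < m → b k * s = s * b k
  rb : ∀ k, k + 1 < m → b k * r = r * b k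
  sB : b 0 * s * b 0 * s = s * b 0 * s * b 0
  rB : b (m - 1) * r * b (m - 1) * r = r * b (m - 1) * r * b (m - 1)

/-- the elements `u k` -/
def uf (m : ℕ) (b : ℕ → G) (r : G) (k : ℕ) : G := tf r (fun j => (b (m - 1 - j))⁻¹) (m - k)

theorem uf_last (m : ℕ) (b : ℕ → G) (r : G) : uf m b r m = r := by
  rw [uf, Nat.sub_self, tf_zero]

theorem uf_step {m : ℕ} (b : ℕ → G) (r : G) {k : ℕ} (hk : k < m) :
    uf m b r k = b k * uf m b r (k + 1) * (b k)⁻¹ := by
  obtain ⟨j, rfl⟩ : ∃ j, m = k + j + 1 := ⟨m - k - 1, by omega⟩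
  rw [uf, uf, show k + j + 1 - k = j + 1 by omega, show k + j + 1 - (k + 1) = j by omega, tf_succ,
    show k + j + 1 - 1 - j = k by omega, inv_inv]

theorem uf_mul {m : ℕ} (b : ℕ → G) {r : G} (hr : r * r = 1) (k : ℕ) : uf m b r k * uf m b r k = 1 :=
  tf_mul _ _ hr _

theorem BS.rev {m : ℕ} {b : ℕ → G} (h : BS m b) : BS m fun j => (b (m - 1 - j))⁻¹ where
  br k hk := by
    have h1 := h.br (m - 1 - (k + 1)) (by omega)
    rw [show m - 1 - (k + 1) + 1 = m - 1 - k by omega] at h1
    have h2 := congrArg (fun x => x⁻¹) h1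
    simp only [mul_inv_rev, ← mul_assoc] at h2
    exact h2.symm
  co k l hkl hl := by
    have h1 := h.co (m - 1 - l) (m - 1 - k) (by omega) (by omega)
    have h2 := congrArg (fun x => x⁻¹) h1
    simpa only [mul_inv_rev] using h2

namespace PS

variable {m : ℕ} {b : ℕ → G} {s r : G} (h : PS m b s r)
include h

theorem rt : RS m b (tf s b) := h.bs.rs h.ss h.sb h.sB

theorem ru : RS m b (uf m b r) := by
  have hm := h.hm
  have h1 : RS m (fun j => (b (m - 1 - j))⁻¹) (tf r fun j => (b (m - 1 - j))⁻¹) := by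
    refine h.bs.rev.rs h.rr (fun k hk hk' => ?_) ?_
    · have h2 := h.rb (m - 1 - k) (by omega)
      rw [inv_mul_eq_iff_eq_mul, ← mul_assoc, h2, mul_inv_cancel_right]
    · have h2 := congrArg (fun x => x⁻¹) h.rB
      have h3 : r⁻¹ = r := inv_eq_of_mul_eq_one_left h.rr
      simp only [mul_inv_rev, h3, ← mul_assoc] at h2
      rw [Nat.sub_zero]
      exact h2.symm
  have hx1 : ∀ k < m, b k * uf m b r (k + 1) = uf m b r k * b k := fun k hk => by
    rw [uf_step b r hk, inv_mul_cancel_right]
  refine ⟨h.bs, hx1, fun k hk => ?_, fun k hk l hl h2 h3 => ?_⟩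
  · have h2 := h1.x2 (m - (k + 1)) (by omega)
    have h3 : uf m b r k = tf r (fun j => (b (m - 1 - j))⁻¹) (m - (k + 1) + 1) := by
      rw [uf, show m - (k + 1) + 1 = m - k by omega]
    have h4 : uf m b r (k + 1) = tf r (fun j => (b (m - 1 - j))⁻¹) (m - (k + 1)) := rfl
    simp only [show m - 1 - (m - (k + 1)) = k by omega] at h2
    rw [← h3, ← h4] at h2
    have h5 := uf_mul (m := m) b h.rr (k + 1)
    have h6 := hx1 k hk
    generalize uf m b r (k + 1) = v at *
    generalize uf m b r k = u at *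
    generalize b k = c at *
    -- `c⁻¹ v = v u v⁻¹ c⁻¹`
    have h7 : v⁻¹ = v := inv_eq_of_mul_eq_one_left h5
    have h8 : u = c * v * c⁻¹ := by
      rw [h6]
      group
    have h9 : c⁻¹ * v * c = v * u * v := by
      rw [h2, h7]
      group
    have h10 : v * c = c * v * u * v := by
      calc v * c = c * (c⁻¹ * v * c) := by group
        _ = _ := by
          rw [h9]
          group
    calc c * u = c * (v * v) * u * (v * v) := by
          rw [h5]
          group
      _ = (c * v) * (v * u * v) * v := by group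
      _ = (c * v) * (c⁻¹ * v * c) * v := by rw [h9]
      _ = (c * v * c⁻¹) * v * (c * v * c⁻¹) * c := by group
      _ = u * v * u⁻¹ * c := by
        rw [← h8]
        have h11 : u⁻¹ = u := by
          rw [h8]
          simp only [mul_inv_rev, inv_inv, h7, mul_assoc]
        rw [h11]
  · have h4 := h1.x3 (m - (k + 1)) (by omega) (m - l) (by omega) (by omega) (by omega)
    simp only [show m - 1 - (m - (k + 1)) = k by omega] at h4
    rw [inv_mul_eq_iff_eq_mul, ← mul_assoc, eq_mul_inv_iff_mul_eq] at h4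
    exact h4.symm

/-- the image of the generator `a` -/
theorem exists_a : ∃ a : G, (∀ k < m, b k * a = a * b k) ∧ a * s = uf m b r 0 * s * uf m b r 0 * a ∧
    uf m b r 0 * a = a * (s * uf m b r 0 * s) := by
  have hm := h.hm
  have ht := h.rt
  have hu := h.ru
  have hD : ∀ i < m, pd b 0 m ^ (m + 1) * b i = b i * pd b 0 m ^ (m + 1) := fun i hi => h.bs.delta_full hi
  have hDt : Commute (pd b 0 m ^ (m + 1)) (pd (tf s b) 0 (m + 1)) := by
    refine Commute.pow_left ?_ _
    have h1 : pd (tf s b) 0 (m + 1) * pd b 0 m = pd b 0 m * pd (tf s b) 0 (m + 1) :=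
      pd_conj fun k hk => (ht.xi_comm (by omega)).symm
    exact h1.symm
  have hDu : Commute (pd b 0 m ^ (m + 1)) (pd (uf m b r) 0 (m + 1)) := by
    refine Commute.pow_left ?_ _
    have h1 : pd (uf m b r) 0 (m + 1) * pd b 0 m = pd b 0 m * pd (uf m b r) 0 (m + 1) :=
      pd_conj fun k hk => (hu.xi_comm (by omega)).symm
    exact h1.symm
  have hbt : ∀ k < m, Commute (b k) (pd (tf s b) 0 (m + 1)) := fun k hk => ht.xi_comm hk
  have hbu : ∀ k < m, Commute (b k) (pd (uf m b r) 0 (m + 1)) := fun k hk => hu.xi_comm hk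
  have h1 := ht.twist (i := 0) (by omega)
  have h2 := hu.twist (i := 0) (by omega)
  have hsu : ∀ l, l + 1 ≤ m → s * uf m b r (m - l) = uf m b r (m - l) * s := by
    intro l
    induction l with
    | zero =>
      intro _
      rw [Nat.sub_zero, uf_last]
      exact h.sr
    | succ l ih =>
      intro hl
      rw [uf_step (k := m - (l + 1)) b r (by omega), show m - (l + 1) + 1 = m - l by omega]
      have h3 : Commute s (b (m - (l + 1))) := (h.sb (m - (l + 1)) (by omega) (by omega)).symm
      exact ((h3.mul_right (ih (by omega))).mul_right h3.inv_right)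
  have hsu' : Commute s (pd (uf m b r) 1 m) := by
    have h3 : s * pd (uf m b r) 1 m = pd (uf m b r) 1 m * s := pd_conj fun k hk => by
      have h4 := hsu (m - (1 + k)) (by omega)
      rwa [show m - (m - (1 + k)) = 1 + k by omega] at h4
    exact h3
  have hsi : s⁻¹ = s := inv_eq_of_mul_eq_one_left h.ss
  have hui : (uf m b r 0)⁻¹ = uf m b r 0 := inv_eq_of_mul_eq_one_left (uf_mul b h.rr 0)
  have htz : ∀ j, j < m → Commute (tf s b (1 + j)) (s * uf m b r 0 * s) := by
    intro j
    induction j with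
    | zero =>
      intro _
      have h3 : Commute s (b 0 * s * b 0) := by
        have h4 := h.sB
        change s * (b 0 * s * b 0) = b 0 * s * b 0 * s
        rw [h4]
        group
      have h4 : Commute s (uf m b r 1) := by
        have h5 := hsu (m - 1) (by omega)
        rwa [show m - (m - 1) = 1 by omega] at h5
      have h5 : Commute s ((b 0 * s * b 0) * uf m b r 1 * (b 0 * s * b 0)⁻¹) :=
        (h3.mul_right h4).mul_right h3.inv_right
      have h6 := h5.map (MulAut.conj (b 0)⁻¹).toMonoidHom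
      have h7 : (MulAut.conj (b 0)⁻¹).toMonoidHom s = tf s b (1 + 0) := by
        simp [tf_succ, tf_zero]
      have h8 : (MulAut.conj (b 0)⁻¹).toMonoidHom ((b 0 * s * b 0) * uf m b r 1 * (b 0 * s * b 0)⁻¹) =
          s * uf m b r 0 * s := by
        rw [uf_step (k := 0) b r (by omega)]
        simp only [MulEquiv.toMonoidHom_eq_coe, MonoidHom.coe_coe, MulAut.conj_apply, mul_inv_rev, hsi, inv_inv,
          zero_add]
        group
      rwa [h7, h8] at h6
    | succ j ih =>
      intro hj
      have h3 : Commute (b (1 + j)) s := h.sb (1 + j) (by omega) (by omega)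
      have h4 : Commute (b (1 + j)) (uf m b r 0) := hu.x3 (1 + j) (by omega) 0 (by omega) (by omega) (by omega)
      have h5 : Commute (b (1 + j)) (s * uf m b r 0 * s) := (h3.mul_right h4).mul_right h3
      rw [← add_assoc, tf_succ]
      exact (h5.inv_left.mul_left (ih (by omega))).mul_left h5
  have htz' : Commute (s * uf m b r 0 * s) (pd (tf s b) 1 m) := by
    have h3 : s * uf m b r 0 * s * pd (tf s b) 1 m = pd (tf s b) 1 m * (s * uf m b r 0 * s) :=
      pd_conj fun k hk => (htz k hk).symm
    exact h3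
  have e1 : pd (uf m b r) 0 (m + 1) = uf m b r 0 * pd (uf m b r) 1 m := pd_cons _ _ _
  have e2 : pd (tf s b) 0 (m + 1) = s * pd (tf s b) 1 m := pd_cons _ _ _
  rw [tf_zero] at h1
  generalize hDD : pd b 0 m ^ (m + 1) = D at *
  generalize hT : pd (tf s b) 0 (m + 1) = T at *
  generalize hY : pd (uf m b r) 0 (m + 1) = Y at *
  refine ⟨Y * T * D⁻¹, fun k hk => ?_, ?_, ?_⟩
  · have h3 : Commute (b k) D := (hD k hk).symm
    exact ((hbu k hk).mul_right (hbt k hk)).mul_right h3.inv_right
  · -- `T D⁻¹ s = s T D⁻¹`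
    have h3 : T * D⁻¹ * s = s * (T * D⁻¹) := by
      calc T * D⁻¹ * s = (T * D⁻¹) * (s * T⁻¹ * D) * (D⁻¹ * T) := by group
        _ = D⁻¹ * T * (s * T⁻¹ * D) * (D⁻¹ * T) := by rw [(hDt.inv_left).eq]
        _ = D⁻¹ * (T * s * T⁻¹ * D) * (D⁻¹ * T) := by group
        _ = s * (D⁻¹ * T) := by
          rw [← h1]
          group
        _ = _ := by rw [(hDt.inv_left).eq]
    calc Y * T * D⁻¹ * s = Y * (T * D⁻¹ * s) := by group
      _ = (Y * s * Y⁻¹) * (Y * T * D⁻¹) := by
        rw [h3]
        group
      _ = _ := by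
        have h4 : Y * s * Y⁻¹ = uf m b r 0 * s * uf m b r 0 := by
          rw [e1, mul_inv_rev, hui]
          calc uf m b r 0 * pd (uf m b r) 1 m * s * ((pd (uf m b r) 1 m)⁻¹ * uf m b r 0)
              = uf m b r 0 * (pd (uf m b r) 1 m * s) * (pd (uf m b r) 1 m)⁻¹ * uf m b r 0 := by group
            _ = _ := by
              rw [← hsu'.eq]
              group
        rw [h4]
  · have h3 : Y * T * D⁻¹ = D⁻¹ * Y * T := by
      calc Y * T * D⁻¹ = Y * (T * D⁻¹) := by group
        _ = Y * D⁻¹ * T := by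
          rw [← hDt.inv_left.eq]
          group
        _ = _ := by rw [← hDu.inv_left.eq]
    have h4 : uf m b r 0 * (D⁻¹ * Y) = D⁻¹ * Y * uf m b r 0 := by
      calc uf m b r 0 * (D⁻¹ * Y) = D⁻¹ * (D * uf m b r 0) * D⁻¹ * Y := by group
        _ = D⁻¹ * Y * uf m b r 0 * Y⁻¹ * Y * (Y⁻¹ * (D * D⁻¹) * Y) := by
          rw [h2]
          group
        _ = _ := by group
    rw [h3]
    calc uf m b r 0 * (D⁻¹ * Y * T) = (uf m b r 0 * (D⁻¹ * Y)) * T := by group
      _ = D⁻¹ * Y * T * (T⁻¹ * uf m b r 0 * T) := by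
        rw [h4]
        group
      _ = _ := by
        have h5 : T⁻¹ * uf m b r 0 * T = s * uf m b r 0 * s := by
          rw [e2, mul_inv_rev, hsi]
          calc (pd (tf s b) 1 m)⁻¹ * s * uf m b r 0 * (s * pd (tf s b) 1 m)
              = (pd (tf s b) 1 m)⁻¹ * ((s * uf m b r 0 * s) * pd (tf s b) 1 m) := by group
            _ = _ := by
              rw [htz'.eq]
              group
        rw [h5]

end PS

end Pool.Agent.H98.DT
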