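import Mathlib

/-!
# Families of elements which are permuted by the braid generators

`pd x a n = x a * x (a + 1) * ⋯ * x (a + n - 1)`. `RS m b x`: the `b k`, `k < m`, satisfy the braid relations and act on the
`x k`, `k ≤ m`, by conjugation: `x (k + 1) ↦ x k`, `x k ↦ x k * x (k + 1) * (x k)⁻¹`. With `δ = pd b 0 m` and `ξ = pd x 0 (m + 1)`
the element `δ ^ (m + 1)` commutes with the `b k`, `ξ` commutes with the `b k`, and `ξ⁻¹ * δ ^ (m + 1)` commutes with the `x k`.
-/

set_option autoImplicit false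

namespace Pool.Agent.H98.DT

variable {G : Type*} [Group G]

/-- the product `x a * ⋯ * x (a + n - 1)` -/
def pd (x : ℕ → G) : ℕ → ℕ → G
  | _, 0 => 1
  | a, n + 1 => x a * pd x (a + 1) n

theorem pd_zero (x : ℕ → G) (a : ℕ) : pd x a 0 = 1 := rfl

theorem pd_cons (x : ℕ → G) (a n : ℕ) : pd x a (n + 1) = x a * pd x (a + 1) n := rfl

theorem pd_snoc (x : ℕ → G) (a n : ℕ) : pd x a (n + 1) = pd x a n * x (a + n) := by
  induction n generalizing a with
  | zero => simp [pd]
  | succ n ih => rw [pd_cons, ih, pd_cons, mul_assoc, show a + 1 + n = a + (n + 1) by ring]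

theorem pd_add (x : ℕ → G) (a n k : ℕ) : pd x a (n + k) = pd x a n * pd x (a + n) k := by
  induction k with
  | zero => simp [pd]
  | succ k ih => rw [← add_assoc, pd_snoc, ih, pd_snoc, mul_assoc, ← add_assoc]

theorem pd_conj {x z : ℕ → G} {y : G} {a c n : ℕ} (h : ∀ k < n, y * x (a + k) = z (c + k) * y) :
    y * pd x a n = pd z c n * y := by
  induction n with
  | zero => simp [pd]
  | succ n ih =>
    rw [pd_snoc, pd_snoc, ← mul_assoc, ih fun k hk => h k (by omega), mul_assoc, h n (by omega), mul_assoc]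

/-- the braid relations -/
structure BS (m : ℕ) (b : ℕ → G) : Prop where
  br : ∀ k, k + 1 < m → b k * b (k + 1) * b k = b (k + 1) * b k * b (k + 1)
  co : ∀ k l, k + 2 ≤ l → l < m → b k * b l = b l * b k

namespace BS

variable {m : ℕ} {b : ℕ → G} (h : BS m b)
include h

theorem delta_mul {i : ℕ} (hi : i + 1 < m) : pd b 0 m * b i = b (i + 1) * pd b 0 m := by
  obtain ⟨j, rfl⟩ : ∃ j, m = i + (j + 2) := ⟨m - i - 2, by omega⟩
  rw [pd_add, pd_cons, pd_cons, zero_add]
  have h1 : b i * pd b (i + 1 + 1) j = pd b (i + 1 + 1) j * b i :=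
    pd_conj fun k hk => h.co i _ (by omega) (by omega)
  have h2 : b (i + 1) * pd b 0 i = pd b 0 i * b (i + 1) :=
    pd_conj fun k hk => (h.co _ (i + 1) (by omega) (by omega)).symm
  have h3 := h.br i (by omega)
  calc pd b 0 i * (b i * (b (i + 1) * pd b (i + 1 + 1) j)) * b i
      = pd b 0 i * b i * b (i + 1) * (pd b (i + 1 + 1) j * b i) := by group
    _ = pd b 0 i * (b i * b (i + 1) * b i) * pd b (i + 1 + 1) j := by
      rw [← h1]
      group
    _ = (pd b 0 i * b (i + 1)) * b i * b (i + 1) * pd b (i + 1 + 1) j := by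
      rw [h3]
      group
    _ = _ := by
      rw [← h2]
      group

theorem delta_last (hm : 0 < m) : pd b 0 m * pd b 0 m * b (m - 1) = b 0 * (pd b 0 m * pd b 0 m) := by
  obtain ⟨j, rfl⟩ : ∃ j, m = j + 1 := ⟨m - 1, by omega⟩
  have h1 : pd b 0 (j + 1) * pd b 0 j = pd b 1 j * pd b 0 (j + 1) :=
    pd_conj fun k hk => by
      have h2 := h.delta_mul (i := k) (by omega)
      rw [zero_add, add_comm 1 k]
      exact h2
  have h2 : pd b 0 (j + 1) = b 0 * pd b 1 j := pd_cons _ _ _
  have h3 : pd b 0 (j + 1) = pd b 0 j * b j := by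
    have h4 := pd_snoc b 0 j
    rwa [zero_add] at h4
  rw [Nat.add_sub_cancel]
  have h5 : pd b 0 (j + 1) * pd b 0 (j + 1) = pd b 1 j * pd b 0 (j + 1) * b j := by
    rw [← h1]
    nth_rw 2 [h3]
    rw [mul_assoc]
  calc pd b 0 (j + 1) * pd b 0 (j + 1) * b j = b 0 * (pd b 1 j * pd b 0 (j + 1) * b j) := by
        nth_rw 1 [h2]
        group
    _ = _ := by rw [← h5]

theorem delta_pow {i j : ℕ} (hi : i + j < m) : pd b 0 m ^ j * b i = b (i + j) * pd b 0 m ^ j := by
  induction j with
  | zero => simp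
  | succ j ih =>
    rw [pow_succ', mul_assoc, ih (by omega), ← mul_assoc, h.delta_mul (by omega), mul_assoc, ← add_assoc]

theorem delta_full {i : ℕ} (hi : i < m) : pd b 0 m ^ (m + 1) * b i = b i * pd b 0 m ^ (m + 1) := by
  obtain ⟨j, rfl⟩ : ∃ j, m = i + j + 1 := ⟨m - i - 1, by omega⟩
  have h1 := h.delta_pow (i := i) (j := j) (by omega)
  have h2 := h.delta_pow (i := 0) (j := i) (by omega)
  have h3 := h.delta_last (by omega)
  rw [Nat.add_sub_cancel] at h3
  rw [zero_add] at h2
  have h4 : pd b 0 (i + j + 1) ^ (i + j + 1 + 1) = pd b 0 (i + j + 1) ^ i * (pd b 0 (i + j + 1) * pd b 0 (i + j + 1)) *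
      pd b 0 (i + j + 1) ^ j := by
    rw [← pow_two, ← pow_add, ← pow_add]
    congr 1
    ring
  generalize pd b 0 (i + j + 1) = δ at *
  rw [h4]
  calc δ ^ i * (δ * δ) * δ ^ j * b i = δ ^ i * (δ * δ * b (i + j)) * δ ^ j := by
        rw [mul_assoc _ (δ ^ j), h1]
        group
    _ = (δ ^ i * b 0) * (δ * δ) * δ ^ j := by
        rw [h3]
        group
    _ = _ := by
        rw [h2]
        group

end BS

/-- the braid generators permute the `x k` -/
structure RS (m : ℕ) (b x : ℕ → G) : Prop extends BS m b where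
  x1 : ∀ k < m, b k * x (k + 1) = x k * b k
  x2 : ∀ k < m, b k * x k = x k * x (k + 1) * (x k)⁻¹ * b k
  x3 : ∀ k < m, ∀ l ≤ m, l ≠ k → l ≠ k + 1 → b k * x l = x l * b k

namespace RS

variable {m : ℕ} {b x : ℕ → G} (h : RS m b x)
include h

theorem xi_comm {k : ℕ} (hk : k < m) : b k * pd x 0 (m + 1) = pd x 0 (m + 1) * b k := by
  obtain ⟨j, rfl⟩ : ∃ j, m = k + j + 1 := ⟨m - k - 1, by omega⟩
  have h0 : k + j + 1 + 1 = k + (j + 2) := by ring
  rw [h0, pd_add, pd_cons, pd_cons, zero_add]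
  have h1 : b k * pd x 0 k = pd x 0 k * b k := pd_conj fun l hl => h.x3 k hk _ (by omega) (by omega) (by omega)
  have h2 : b k * pd x (k + 1 + 1) j = pd x (k + 1 + 1) j * b k :=
    pd_conj fun l hl => h.x3 k hk _ (by omega) (by omega) (by omega)
  have h3 := h.x1 k hk
  have h4 := h.x2 k hk
  calc b k * (pd x 0 k * (x k * (x (k + 1) * pd x (k + 1 + 1) j)))
      = (b k * pd x 0 k) * x k * x (k + 1) * pd x (k + 1 + 1) j := by group
    _ = pd x 0 k * (b k * x k) * x (k + 1) * pd x (k + 1 + 1) j := by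
      rw [h1]
      group
    _ = pd x 0 k * x k * x (k + 1) * (x k)⁻¹ * (b k * x (k + 1)) * pd x (k + 1 + 1) j := by
      rw [h4]
      group
    _ = pd x 0 k * x k * x (k + 1) * (b k * pd x (k + 1 + 1) j) := by
      rw [h3]
      group
    _ = _ := by
      rw [h2]
      group

theorem down {i : ℕ} (hi : i ≤ m) : pd b 0 i * x i = x 0 * pd b 0 i := by
  induction i with
  | zero => simp [pd]
  | succ i ih =>
    rw [pd_snoc, zero_add, mul_assoc, h.x1 i (by omega), ← mul_assoc, ih (by omega), mul_assoc]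

theorem delta_last_x : pd b 0 m * x m = x 0 * pd b 0 m := h.down le_rfl

theorem delta_x {i : ℕ} (hi : i < m) : pd b 0 m * x i = x 0 * x (i + 1) * (x 0)⁻¹ * pd b 0 m := by
  obtain ⟨j, rfl⟩ : ∃ j, m = i + (j + 1) := ⟨m - i - 1, by omega⟩
  rw [pd_add, pd_cons, zero_add]
  have h1 : x i * pd b (i + 1) j = pd b (i + 1) j * x i :=
    pd_conj fun k hk => (h.x3 _ (by omega) i (by omega) (by omega) (by omega)).symm
  have h2 := h.x2 i hi
  have h3 := h.down (i := i) (by omega)
  have h4 : x (i + 1) * pd b 0 i = pd b 0 i * x (i + 1) :=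
    pd_conj fun k hk => (h.x3 _ (by omega) (i + 1) (by omega) (by omega) (by omega)).symm
  have h5 : pd b 0 i * (x i)⁻¹ = (x 0)⁻¹ * pd b 0 i := by
    rw [mul_inv_eq_iff_eq_mul, mul_assoc, h3, inv_mul_cancel_left]
  calc pd b 0 i * (b i * pd b (i + 1) j) * x i = pd b 0 i * b i * (pd b (i + 1) j * x i) := by group
    _ = pd b 0 i * (b i * x i) * pd b (i + 1) j := by
      rw [← h1]
      group
    _ = (pd b 0 i * x i) * x (i + 1) * (x i)⁻¹ * b i * pd b (i + 1) j := by
      rw [h2]
      group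
    _ = x 0 * (pd b 0 i * x (i + 1)) * (x i)⁻¹ * b i * pd b (i + 1) j := by
      rw [h3]
      group
    _ = x 0 * x (i + 1) * (pd b 0 i * (x i)⁻¹) * b i * pd b (i + 1) j := by
      rw [← h4]
      group
    _ = _ := by
      rw [h5]
      group

theorem eps_x {i : ℕ} (hi : i < m) : ((x 0)⁻¹ * pd b 0 m) * x i = x (i + 1) * ((x 0)⁻¹ * pd b 0 m) := by
  rw [mul_assoc, h.delta_x hi]
  group

theorem eps_last : ((x 0)⁻¹ * pd b 0 m) * x m = x 0 * ((x 0)⁻¹ * pd b 0 m) := by
  rw [mul_assoc, h.delta_last_x]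
  group

theorem eps_pow {i j : ℕ} (hi : i + j ≤ m) :
    ((x 0)⁻¹ * pd b 0 m) ^ j * x i = x (i + j) * ((x 0)⁻¹ * pd b 0 m) ^ j := by
  induction j with
  | zero => simp
  | succ j ih =>
    rw [pow_succ', mul_assoc, ih (by omega), ← mul_assoc, h.eps_x (by omega), mul_assoc, ← add_assoc]

theorem eps_full {i : ℕ} (hi : i ≤ m) :
    ((x 0)⁻¹ * pd b 0 m) ^ (m + 1) * x i = x i * ((x 0)⁻¹ * pd b 0 m) ^ (m + 1) := by
  obtain ⟨j, rfl⟩ : ∃ j, m = i + j := ⟨m - i, by omega⟩
  have h1 := h.eps_pow (i := i) (j := j) (by omega)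
  have h2 := h.eps_pow (i := 0) (j := i) (by omega)
  have h3 := h.eps_last
  rw [zero_add] at h2
  have h4 : ((x 0)⁻¹ * pd b 0 (i + j)) ^ (i + j + 1) = ((x 0)⁻¹ * pd b 0 (i + j)) ^ i * ((x 0)⁻¹ * pd b 0 (i + j)) *
      ((x 0)⁻¹ * pd b 0 (i + j)) ^ j := by
    rw [← pow_succ, ← pow_add]
    congr 1
    ring
  generalize (x 0)⁻¹ * pd b 0 (i + j) = δ at *
  rw [h4]
  calc δ ^ i * δ * δ ^ j * x i = δ ^ i * (δ * x (i + j)) * δ ^ j := by
        rw [mul_assoc _ (δ ^ j), h1]
        group
    _ = (δ ^ i * x 0) * δ * δ ^ j := by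
        rw [h3]
        group
    _ = _ := by
        rw [h2]
        group

theorem delta_eq {j : ℕ} (hj : j ≤ m + 1) : pd b 0 m ^ j = pd x 0 j * ((x 0)⁻¹ * pd b 0 m) ^ j := by
  induction j with
  | zero => simp [pd]
  | succ j ih =>
    have h1 := h.eps_pow (i := 0) (j := j) (by omega)
    rw [zero_add] at h1
    rw [pow_succ, ih (by omega), pd_snoc, zero_add]
    have h2 : pd b 0 m = x 0 * ((x 0)⁻¹ * pd b 0 m) := by group
    calc pd x 0 j * ((x 0)⁻¹ * pd b 0 m) ^ j * pd b 0 m
        = pd x 0 j * ((x 0)⁻¹ * pd b 0 m) ^ j * (x 0 * ((x 0)⁻¹ * pd b 0 m)) := by rw [← h2]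
      _ = pd x 0 j * (((x 0)⁻¹ * pd b 0 m) ^ j * x 0) * ((x 0)⁻¹ * pd b 0 m) := by
        simp only [mul_assoc]
      _ = _ := by
        rw [h1, pow_succ]
        simp only [mul_assoc]

/-- the full twist -/
theorem twist {i : ℕ} (hi : i ≤ m) :
    pd b 0 m ^ (m + 1) * x i = pd x 0 (m + 1) * x i * (pd x 0 (m + 1))⁻¹ * pd b 0 m ^ (m + 1) := by
  have h1 := h.delta_eq (j := m + 1) le_rfl
  have h2 := h.eps_full hi
  rw [h1]
  generalize ((x 0)⁻¹ * pd b 0 m) ^ (m + 1) = e at *
  rw [mul_assoc, h2]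
  group

end RS

/-- the elements `s`, `(b 0)⁻¹ * s * b 0`, `⋯` -/
def tf (s : G) (b : ℕ → G) : ℕ → G
  | 0 => s
  | k + 1 => (b k)⁻¹ * tf s b k * b k

theorem tf_zero (s : G) (b : ℕ → G) : tf s b 0 = s := rfl

theorem tf_succ (s : G) (b : ℕ → G) (k : ℕ) : tf s b (k + 1) = (b k)⁻¹ * tf s b k * b k := rfl

theorem tf_mul (s : G) (b : ℕ → G) (hs : s * s = 1) (k : ℕ) : tf s b k * tf s b k = 1 := by
  induction k with
  | zero => exact hs
  | succ k ih =>
    rw [tf_succ]
    calc (b k)⁻¹ * tf s b k * b k * ((b k)⁻¹ * tf s b k * b k) = (b k)⁻¹ * (tf s b k * tf s b k) * b k := by group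
      _ = 1 := by
        rw [ih]
        group

theorem BS.rs {m : ℕ} {b : ℕ → G} (h : BS m b) {s : G} (hs : s * s = 1)
    (hsb : ∀ k, 0 < k → k < m → b k * s = s * b k) (hB : b 0 * s * b 0 * s = s * b 0 * s * b 0) :
    RS m b (tf s b) := by
  have h1 : ∀ k, b k * tf s b (k + 1) = tf s b k * b k := fun k => by
    rw [tf_succ]
    group
  have h3 : ∀ l, l ≤ m → ∀ k < m, l ≠ k → l ≠ k + 1 → b k * tf s b l = tf s b l * b k := by
    intro l
    induction l using Nat.strong_induction_on with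
    | _ l ih =>
      intro hl k hk hlk hlk'
      rcases l with _ | l
      · exact hsb k (by omega) hk
      · by_cases h4 : k + 1 = l
        · obtain rfl := h4
          have h5 := ih k (by omega) (by omega) (k + 1) (by omega) (by omega) (by omega)
          have h6 := h.br k (by omega)
          rw [tf_succ, tf_succ]
          have h7 : b k * (b (k + 1))⁻¹ * (b k)⁻¹ = (b (k + 1))⁻¹ * (b k)⁻¹ * b (k + 1) := by
            calc b k * (b (k + 1))⁻¹ * (b k)⁻¹ = (b (k + 1))⁻¹ * (b k)⁻¹ * (b k * b (k + 1) * b k) *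
                  (b (k + 1))⁻¹ * (b k)⁻¹ := by group
              _ = (b (k + 1))⁻¹ * (b k)⁻¹ * b (k + 1) := by
                rw [h6]
                group
          calc b k * ((b (k + 1))⁻¹ * ((b k)⁻¹ * tf s b k * b k) * b (k + 1))
              = (b k * (b (k + 1))⁻¹ * (b k)⁻¹) * tf s b k * b k * b (k + 1) := by group
            _ = (b (k + 1))⁻¹ * (b k)⁻¹ * (b (k + 1) * tf s b k) * b k * b (k + 1) := by
              rw [h7]
              group
            _ = (b (k + 1))⁻¹ * (b k)⁻¹ * tf s b k * (b (k + 1) * b k * b (k + 1)) := by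
              rw [h5]
              group
            _ = _ := by
              rw [← h6]
              group
        · have h5 : b k * b l = b l * b k := by
            rcases Nat.lt_or_ge k l with h6 | h6
            · exact h.co k l (by omega) (by omega)
            · exact (h.co l k (by omega) hk).symm
          have h6 := ih l (by omega) (by omega) k hk (by omega) (by omega)
          have h7 : b k * (b l)⁻¹ = (b l)⁻¹ * b k := by
            rw [mul_inv_eq_iff_eq_mul, mul_assoc, h5, inv_mul_cancel_left]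
          rw [tf_succ]
          calc b k * ((b l)⁻¹ * tf s b l * b l) = (b k * (b l)⁻¹) * tf s b l * b l := by group
            _ = (b l)⁻¹ * (b k * tf s b l) * b l := by
              rw [h7]
              group
            _ = (b l)⁻¹ * tf s b l * (b k * b l) := by
              rw [h6]
              group
            _ = _ := by
              rw [h5]
              group
  have hB' : ∀ k < m, b k * tf s b k * b k * tf s b k = tf s b k * b k * tf s b k * b k := by
    intro k
    induction k with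
    | zero => exact fun _ => hB
    | succ k ih =>
      intro hk
      have h4 := ih (by omega)
      have h5 := h.br k hk
      have h6 := h3 k (by omega) (k + 1) hk (by omega) (by omega)
      have e1 : b (k + 1) = (b k)⁻¹ * (b (k + 1))⁻¹ * b k * (b (k + 1) * b k) := by
        calc b (k + 1) = (b k)⁻¹ * (b (k + 1))⁻¹ * (b (k + 1) * b k * b (k + 1)) := by group
          _ = _ := by
            rw [← h5]
            group
      have e2 : tf s b (k + 1) = (b k)⁻¹ * (b (k + 1))⁻¹ * tf s b k * (b (k + 1) * b k) := by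
        calc tf s b (k + 1) = (b k)⁻¹ * (b (k + 1))⁻¹ * (b (k + 1) * tf s b k) * b k := by
              rw [tf_succ]
              group
          _ = _ := by
            rw [h6]
            group
      have e3 : ∀ y z : G, ((b k)⁻¹ * (b (k + 1))⁻¹ * y * (b (k + 1) * b k)) *
          ((b k)⁻¹ * (b (k + 1))⁻¹ * z * (b (k + 1) * b k)) =
          (b k)⁻¹ * (b (k + 1))⁻¹ * (y * z) * (b (k + 1) * b k) := fun y z => by group
      generalize tf s b (k + 1) = t' at *
      generalize tf s b k = t at *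
      generalize b k = c at *
      generalize b (k + 1) = c' at *
      calc c' * t' * c' * t' = (c⁻¹ * c'⁻¹ * c * (c' * c)) * (c⁻¹ * c'⁻¹ * t * (c' * c)) *
            (c⁻¹ * c'⁻¹ * c * (c' * c)) * (c⁻¹ * c'⁻¹ * t * (c' * c)) := by rw [← e1, ← e2]
        _ = c⁻¹ * c'⁻¹ * (c * t * c * t) * (c' * c) := by rw [e3, e3, e3]
        _ = (c⁻¹ * c'⁻¹ * t * (c' * c)) * (c⁻¹ * c'⁻¹ * c * (c' * c)) *
            (c⁻¹ * c'⁻¹ * t * (c' * c)) * (c⁻¹ * c'⁻¹ * c * (c' * c)) := by rw [h4, e3, e3, e3]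
        _ = _ := by rw [← e1, ← e2]
  refine ⟨h, fun k _ => h1 k, fun k hk => ?_, fun k hk l hl h4 h5 => h3 l hl k hk h4 h5⟩
  have h4 := hB' k hk
  have h5 := tf_mul s b hs k
  have h6 : (tf s b k)⁻¹ = tf s b k := inv_eq_of_mul_eq_one_left h5
  rw [tf_succ, h6]
  generalize tf s b k = t at *
  generalize b k = c at *
  calc c * t = (t * t) * c * t := by rw [h5, one_mul]
    _ = t * c⁻¹ * (c * t * c * t) := by group
    _ = t * (c⁻¹ * t * c) * t * c := by
      rw [h4]
      group

end Pool.Agent.H98.DT
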