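import Pool.Agent.H98.DT.Fi

/-!
# The embedding is injective

The permutations of the set `A = Art (cmT n)`: the left multiplications and the two automorphisms which exchange the leaves at one
end of the diagram. They satisfy `PS (n + 3)`, so that there is an equivariant homomorphism from `Np`, which extends to `EE n`; the
composition with `phE n` is the left multiplication.
-/

set_option autoImplicit false

namespace Pool.Agent.H98.DT

open Pool.Agent.H52.PAG

section Sym

variable {B : Type} [DecidableEq B] {M : CoxeterMatrix B}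

/-- the automorphism which exchanges two vertices of the diagram -/
def swA (v w : B) (h : ∀ x y, M (Equiv.swap v w x) (Equiv.swap v w y) = M x y) : Art M →* Art M :=
  lift (fun x => gen M (Equiv.swap v w x)) fun x y hxy => by
    have h1 : M (Equiv.swap v w x) (Equiv.swap v w y) ≠ 0 := by
      rw [h]
      exact hxy
    have h2 := gen_rel h1
    rwa [h] at h2

theorem swA_gen (v w : B) (h : ∀ x y, M (Equiv.swap v w x) (Equiv.swap v w y) = M x y) (x : B) :
    swA v w h (gen M x) = gen M (Equiv.swap v w x) := lift_gen _ _ _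

theorem swA_swA (v w : B) (h : ∀ x y, M (Equiv.swap v w x) (Equiv.swap v w y) = M x y) (x : Art M) :
    swA v w h (swA v w h x) = x := by
  have h1 : (swA v w h).comp (swA v w h) = MonoidHom.id (Art M) := art_ext fun x => by
    rw [MonoidHom.comp_apply, swA_gen, swA_gen, Equiv.swap_apply_self]
    rfl
  exact DFunLike.congr_fun h1 x

theorem twin_sym {v w : B} (h : ∀ z, z ≠ v → z ≠ w → M v z = M w z) (x y : B) :
    M (Equiv.swap v w x) (Equiv.swap v w y) = M x y := by
  have hv : ∀ z, M z v = M v z := fun z => M.symmetric z v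
  have hw : ∀ z, M z w = M w z := fun z => M.symmetric z w
  have hd : ∀ z, M z z = 1 := M.diagonal
  by_cases hx : x = v
  · subst hx
    rw [Equiv.swap_apply_left]
    by_cases hy : y = x
    · subst hy
      rw [Equiv.swap_apply_left, hd, hd]
    · by_cases hy' : y = w
      · subst hy'
        rw [Equiv.swap_apply_right]
        exact hv y
      · rw [Equiv.swap_apply_of_ne_of_ne hy hy', h y hy hy']
  · by_cases hx' : x = w
    · subst hx'
      rw [Equiv.swap_apply_right]
      by_cases hy : y = v
      · subst hy
        rw [Equiv.swap_apply_left]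
        exact hw y
      · by_cases hy' : y = x
        · subst hy'
          rw [Equiv.swap_apply_right, hd, hd]
        · rw [Equiv.swap_apply_of_ne_of_ne hy hy', h y hy hy']
    · rw [Equiv.swap_apply_of_ne_of_ne hx hx']
      by_cases hy : y = v
      · subst hy
        rw [Equiv.swap_apply_left, hv, hw, h x hx hx']
      · by_cases hy' : y = w
        · subst hy'
          rw [Equiv.swap_apply_right, hv, hw, h x hx hx']
        · rw [Equiv.swap_apply_of_ne_of_ne hy hy']

/-- the automorphism as a permutation -/
def swP (v w : B) (h : ∀ x y, M (Equiv.swap v w x) (Equiv.swap v w y) = M x y) : Equiv.Perm (Art M) where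
  toFun := swA v w h
  invFun := swA v w h
  left_inv := swA_swA v w h
  right_inv := swA_swA v w h

variable (M) in
/-- the left multiplications -/
def iota : Art M →* Equiv.Perm (Art M) := MulAction.toPermHom (Art M) (Art M)

omit [DecidableEq B] in
theorem iota_apply (g x : Art M) : iota M g x = g * x := rfl

omit [DecidableEq B] in
theorem iota_inj : Function.Injective (iota M) := fun g g' h => by
  have h1 := DFunLike.congr_fun h 1
  rw [iota_apply, iota_apply, mul_one, mul_one] at h1
  exact h1

theorem swP_mul (v w : B) (h : ∀ x y, M (Equiv.swap v w x) (Equiv.swap v w y) = M x y) :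
    swP v w h * swP v w h = 1 := by
  ext x
  exact swA_swA v w h x

theorem swP_iota (v w : B) (h : ∀ x y, M (Equiv.swap v w x) (Equiv.swap v w y) = M x y) (g : Art M) :
    swP v w h * iota M g = iota M (swA v w h g) * swP v w h := by
  ext x
  change swA v w h (g * x) = swA v w h g * swA v w h x
  exact map_mul _ _ _

end Sym

variable (n : ℕ)

theorem sym0 (x y : Option (Option (Fin (n + 3)))) :
    cmT n (Equiv.swap (some (some 0)) (some none) x) (Equiv.swap (some (some 0)) (some none) y) = cmT n x y := by
  refine twin_sym (fun z h1 h2 => ?_) x y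
  rw [cmT_apply, cmT_apply]
  rcases z with _ | z
  · simp only [lT]
    rw [if_neg]
    have h3 : (0 : Fin (n + 3)).val = 0 := rfl
    omega
  · rcases z with _ | k
    · exact (h2 rfl).elim
    · have hk : k.val ≠ 0 := fun h => h1 (by rw [show k = 0 from Fin.ext h])
      have h3 : (0 : Fin (n + 3)).val = 0 := rfl
      simp only [lT, lD, pl]
      split_ifs <;> omega

theorem sym1 (x y : Option (Option (Fin (n + 3)))) :
    cmT n (Equiv.swap (some (some (Fin.last (n + 2)))) none x) (Equiv.swap (some (some (Fin.last (n + 2)))) none y) =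
      cmT n x y := by
  refine twin_sym (fun z h1 h2 => ?_) x y
  rw [cmT_apply, cmT_apply]
  rcases z with _ | z
  · exact (h2 rfl).elim
  · rcases z with _ | k
    · simp only [lT, lD, Fin.val_last]
      rw [if_neg (by omega)]
    · have hk : k.val ≠ n + 2 := fun h => h1 (by rw [show k = Fin.last (n + 2) from Fin.ext h])
      have h3 := k.2
      simp only [lT, lD, pl, Fin.val_last]
      split_ifs <;> omega

/-- the exchange of the first two leaves -/
def sQ : Equiv.Perm (Art (cmT n)) := swP _ _ (sym0 n)

/-- the exchange of the last two leaves -/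
def rQ : Equiv.Perm (Art (cmT n)) := swP _ _ (sym1 n)

/-- the left multiplications by the generators -/
def bQ (k : ℕ) : Equiv.Perm (Art (cmT n)) :=
  if h : k < n + 3 then iota _ (gen (cmT n) (some (some ⟨k, h⟩))) else 1

theorem bQ_fin (k : Fin (n + 3)) : bQ n k.val = iota _ (gen (cmT n) (some (some k))) := dif_pos k.2

theorem bQ_zero : bQ n 0 = iota _ (gen (cmT n) (some (some 0))) := bQ_fin n 0

theorem bQ_last : bQ n (n + 2) = iota _ (gen (cmT n) (some (some (Fin.last (n + 2))))) := bQ_fin n (Fin.last (n + 2))

theorem sQ_b0 : sQ n * bQ n 0 * sQ n = iota _ (gen (cmT n) (some none)) := by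
  rw [bQ_zero, sQ, swP_iota, mul_assoc, swP_mul, mul_one, swA_gen, Equiv.swap_apply_left]

theorem rQ_bl : rQ n * bQ n (n + 2) * rQ n = iota _ (gen (cmT n) none) := by
  rw [bQ_last, rQ, swP_iota, mul_assoc, swP_mul, mul_one, swA_gen, Equiv.swap_apply_left]

theorem sQ_mul : sQ n * sQ n = 1 := swP_mul _ _ _

theorem rQ_mul : rQ n * rQ n = 1 := swP_mul _ _ _

theorem ps_Q : PS (n + 3) (bQ n) (sQ n) (rQ n) where
  bs :=
    { br := fun k hk => by
        have h1 := ((trel_gen n).d.toBRel.map (iota (cmT n))).br ⟨k, by omega⟩ ⟨k + 1, hk⟩ rfl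
        rw [bQ, bQ, dif_pos hk, dif_pos (by omega)]
        exact h1
      co := fun k l hkl hl => by
        have h1 := ((trel_gen n).d.toBRel.map (iota (cmT n))).co ⟨k, by omega⟩ ⟨l, hl⟩ hkl
        rw [bQ, bQ, dif_pos hl, dif_pos (by omega)]
        exact h1 }
  hm := by omega
  ss := sQ_mul n
  rr := rQ_mul n
  sr := by
    ext x
    change swA _ _ (sym0 n) (swA _ _ (sym1 n) x) = swA _ _ (sym1 n) (swA _ _ (sym0 n) x)
    have h1 : (swA _ _ (sym0 n)).comp (swA _ _ (sym1 n)) = (swA _ _ (sym1 n)).comp (swA _ _ (sym0 n)) := by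
      refine art_ext fun y => ?_
      rw [MonoidHom.comp_apply, MonoidHom.comp_apply, swA_gen, swA_gen, swA_gen, swA_gen]
      congr 1
      have h0 : (0 : Fin (n + 3)) ≠ Fin.last (n + 2) := by
        intro h
        have h3 := congrArg Fin.val h
        simp at h3
      have h2 : Equiv.Perm.Disjoint (Equiv.swap (some (some (0 : Fin (n + 3)))) (some none))
          (Equiv.swap (some (some (Fin.last (n + 2)))) none) := by
        rw [Equiv.Perm.disjoint_iff_eq_or_eq]
        intro z
        by_cases h3 : z = some (some 0)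
        · right
          subst h3
          refine Equiv.swap_apply_of_ne_of_ne ?_ (by simp)
          intro h4
          exact h0 (Option.some_injective _ (Option.some_injective _ h4))
        · by_cases h4 : z = some none
          · right
            subst h4
            exact Equiv.swap_apply_of_ne_of_ne (by simp) (by simp)
          · left
            exact Equiv.swap_apply_of_ne_of_ne h3 h4
      exact DFunLike.congr_fun h2.commute.eq y
    exact DFunLike.congr_fun h1 x
  sb k hk hk' := by
    rw [bQ, dif_pos hk', sQ]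
    rw [swP_iota, swA_gen, Equiv.swap_apply_of_ne_of_ne]
    · intro h
      have h3 := congrArg Fin.val (Option.some_injective _ (Option.some_injective _ h))
      simp at h3
      omega
    · simp
  rb k hk := by
    rw [bQ, dif_pos (by omega), rQ]
    rw [swP_iota, swA_gen, Equiv.swap_apply_of_ne_of_ne]
    · intro h
      have h3 := congrArg Fin.val (Option.some_injective _ (Option.some_injective _ h))
      simp at h3
      omega
    · simp
  sB := by
    have h1 := sQ_b0 n
    have h2 := (trel_gen n).d.qco 0 zero_ne_one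
    have h3 := congrArg (iota (cmT n)) h2
    simp only [map_mul] at h3
    rw [← bQ_zero, ← h1] at h3
    have h4 := h3.symm
    simp only [← mul_assoc] at h4
    exact h4
  rB := by
    have h1 := rQ_bl n
    have h2 := (trel_gen n).d'.qco (Fin.last (n + 2)) (by rw [Fin.val_last]; omega)
    have h3 := congrArg (iota (cmT n)) h2
    simp only [map_mul] at h3
    rw [← bQ_last, ← h1] at h3
    have h4 := h3.symm
    simp only [← mul_assoc] at h4
    exact h4

/-- the homomorphism from the Artin group of type `D` -/
def aQ : Art (cmD n 1) →* Equiv.Perm (Art (cmT n)) := (iota (cmT n)).comp (liftD (trel_gen n).d)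

theorem aQ_b (k : Fin (n + 3)) : aQ n (gen _ (some k)) = bQ n k.val := by
  rw [aQ, MonoidHom.comp_apply, liftD_b, bQ_fin]

theorem aQ_q : aQ n (gen _ none) = sQ n * bQ n 0 * sQ n := by
  rw [aQ, MonoidHom.comp_apply, liftD_q, sQ_b0]

theorem psN_aD (g : Art (cmD n 1)) (x : Np (St n)) :
    (ps_Q n).psN (aD n g x) = aQ n g * (ps_Q n).psN x * (aQ n g)⁻¹ := by
  have hb : ∀ (k : Fin (n + 3)) (x : Np (St n)),
      (ps_Q n).psN (bN k x) = bQ n k.val * (ps_Q n).psN x * (bQ n k.val)⁻¹ := fun k x =>
    (ps_Q n).psN_bb (i := k.castSucc) (j := k.succ) rfl x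
  have ht : ∀ x : Np (St n), (ps_Q n).psN (tb 0 x) = sQ n * (ps_Q n).psN x * (sQ n)⁻¹ := fun x =>
    (ps_Q n).psN_tt 0 x
  have hgen : ∀ (y : Option (Fin (n + 3))) (x : Np (St n)),
      (ps_Q n).psN (aD n (gen _ y) x) = aQ n (gen _ y) * (ps_Q n).psN x * (aQ n (gen _ y))⁻¹ := by
    intro y x
    rcases y with _ | k
    · have h1 : aD n (gen _ none) = tt 0 * bN 0 * tt 0 := liftD_q _
      rw [h1, aQ_q]
      change (ps_Q n).psN (tb 0 (bN 0 (tb 0 x))) = _
      rw [ht, hb, ht]
      have h2 : (0 : Fin (n + 3)).val = 0 := rfl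
      have h3 : (sQ n)⁻¹ = sQ n := inv_eq_of_mul_eq_one_left (sQ_mul n)
      rw [h2, mul_inv_rev, mul_inv_rev, h3]
      group
    · have h1 : aD n (gen _ (some k)) = bN k := liftD_b _ _
      rw [h1, aQ_b, hb]
  induction g using art_induction generalizing x with
  | h1 => simp
  | h2 g i ih =>
    rw [map_mul, MulAut.mul_apply, ih, hgen, map_mul, mul_inv_rev]
    group
  | h3 g i ih =>
    have h4 := hgen i ((aD n (gen _ i))⁻¹ x)
    rw [← MulAut.mul_apply, mul_inv_cancel, MulAut.one_apply] at h4
    rw [map_mul, MulAut.mul_apply, ih, map_inv, map_mul, map_inv, mul_inv_rev, inv_inv, h4]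
    group

/-- the homomorphism to the permutations -/
noncomputable def psE : EE n →* Equiv.Perm (Art (cmT n)) :=
  SemidirectProduct.lift (ps_Q n).psN (aQ n) fun g => MonoidHom.ext fun x => psN_aD n g x

theorem psE_iN (x : Np (St n)) : psE n (iN x) = (ps_Q n).psN x := SemidirectProduct.lift_inl _ _ _ _

theorem psE_inr (g : Art (cmD n 1)) : psE n (SemidirectProduct.inr g) = aQ n g := SemidirectProduct.lift_inr _ _ _ _

theorem psE_phE (g : Art (cmT n)) : psE n (phE n g) = iota _ g := by
  have h1 : (psE n).comp (phE n) = iota (cmT n) := by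
    refine t_ext (fun k => ?_) ?_ ?_
    · rw [MonoidHom.comp_apply, phE_b, bE, psE_inr, aQ_b, bQ_fin]
    · rw [MonoidHom.comp_apply, phE_q, qE, psE_inr, aQ_q, sQ_b0]
    · rw [MonoidHom.comp_apply, phE_q', map_mul, map_mul, bE, psE_inr, aQ_b, rE, psE_iN, PS.psN_U]
      have h2 : (Fin.last (n + 3) : St n).val = n + 3 := rfl
      rw [h2, uf_last, Fin.val_last, rQ_bl]
  exact DFunLike.congr_fun h1 g

theorem phE_inj : Function.Injective (phE n) := fun g g' h => by
  apply iota_inj
  rw [← psE_phE, ← psE_phE, h]

end Pool.Agent.H98.DT
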